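import Mathlib

/-!
# Limits of points of a closed subset of `ℙ² × ℙᵐ` over a local field
-/

set_option autoImplicit false
set_option linter.all false

open MvPolynomial Filter Topology

namespace Pool.Agent.K6.H88.SC

section homog
variable {R S : Type} [CommRing R] [CommRing S] {m : ℕ}

/-- the weights for the bidegree -/
def wt (m : ℕ) : Fin 3 ⊕ Fin (m + 1) → ℕ × ℕ := Sum.elim (fun _ => (1, 0)) (fun _ => (0, 1))

theorem weight_wt (m : ℕ) (x : (Fin 3 ⊕ Fin (m + 1)) →₀ ℕ) :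
    Finsupp.weight (wt m) x = (∑ j, x (Sum.inl j), ∑ s, x (Sum.inr s)) := by
  rw [Finsupp.weight_apply, Finsupp.sum_fintype _ _ (by simp), Fintype.sum_sum_type]
  simp [wt, Prod.ext_iff, Prod.fst_sum, Prod.snd_sum]

/-- scaling -/
theorem eval_scale {G : MvPolynomial (Fin 3 ⊕ Fin (m + 1)) R} {de : ℕ × ℕ}
    (hG : IsWeightedHomogeneous (wt m) G de) (φ : R →+* S) (V : Fin 3 → S) (T : Fin (m + 1) → S)
    (a b : S) : eval₂ φ (Sum.elim (fun j => a * V j) (fun s => b * T s)) G =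
      a ^ de.1 * b ^ de.2 * eval₂ φ (Sum.elim V T) G := by
  rw [eval₂_eq', eval₂_eq', Finset.mul_sum]
  refine Finset.sum_congr rfl fun x hx => ?_
  have h1 := hG (mem_support_iff.1 hx)
  rw [weight_wt] at h1
  have h2 : ∑ j, x (Sum.inl j) = de.1 := by rw [← h1]
  have h3 : ∑ s, x (Sum.inr s) = de.2 := by rw [← h1]
  rw [Fintype.prod_sum_type, Fintype.prod_sum_type]
  simp only [Sum.elim_inl, Sum.elim_inr, mul_pow, Finset.prod_mul_distrib, Finset.prod_pow_eq_pow_sum,
    h2, h3]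
  ring

end homog

section lim
variable {L : Type} [NormedField L] [ProperSpace L] {m : ℕ} {R : Type} [CommRing R]

/-- normalisation of homogeneous coordinates -/
theorem exists_scale {m : ℕ} (T : Fin (m + 1) → L) (hT : T ≠ 0) :
    ∃ b : L, b ≠ 0 ∧ ‖fun s => b * T s‖ = 1 := by
  obtain ⟨i, -, hi⟩ := Finset.exists_max_image (Finset.univ : Finset (Fin (m + 1)))
    (fun i => ‖T i‖) ⟨0, Finset.mem_univ _⟩
  have h0 : T i ≠ 0 := by
    intro h
    apply hT
    funext j
    have h1 := hi j (Finset.mem_univ _)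
    rw [h, norm_zero] at h1
    exact norm_eq_zero.1 (le_antisymm h1 (norm_nonneg _))
  refine ⟨(T i)⁻¹, inv_ne_zero h0, le_antisymm ?_ ?_⟩
  · rw [pi_norm_le_iff_of_nonneg zero_le_one]
    intro j
    rw [norm_mul, norm_inv, inv_mul_le_iff₀ (norm_pos_iff.2 h0), mul_one]
    exact hi j (Finset.mem_univ _)
  · have h1 := norm_le_pi_norm (fun s => (T i)⁻¹ * T s) i
    simp only [inv_mul_cancel₀ h0, norm_one] at h1
    exact h1

/-- the limit of the points `(V n, T n)`, `V n → V₀` -/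
theorem exists_limit {q : ℕ} (φ : R →+* L) (G : Fin q → MvPolynomial (Fin 3 ⊕ Fin (m + 1)) R)
    (de : Fin q → ℕ × ℕ) (hG : ∀ l, IsWeightedHomogeneous (wt m) (G l) (de l))
    (V : ℕ → Fin 3 → L) (V₀ : Fin 3 → L) (hV : Tendsto V atTop (𝓝 V₀))
    (T : ℕ → Fin (m + 1) → L) (hT : ∀ n, T n ≠ 0)
    (h : ∀ n l, eval₂ φ (Sum.elim (V n) (T n)) (G l) = 0) :
    ∃ T₀ : Fin (m + 1) → L, T₀ ≠ 0 ∧ ∀ l, eval₂ φ (Sum.elim V₀ T₀) (G l) = 0 := by
  choose b hb0 hb using fun n => exists_scale (T n) (hT n)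
  set T' : ℕ → Fin (m + 1) → L := fun n s => b n * T n s with hT'
  have hmem : ∀ n, T' n ∈ Metric.sphere (0 : Fin (m + 1) → L) 1 := fun n => by
    rw [mem_sphere_zero_iff_norm]
    exact hb n
  obtain ⟨T₀, hT₀, ψ, hψ, hlim⟩ := (isCompact_sphere (0 : Fin (m + 1) → L) 1).tendsto_subseq hmem
  refine ⟨T₀, ?_, fun l => ?_⟩
  · rintro rfl
    rw [mem_sphere_zero_iff_norm, norm_zero] at hT₀
    exact zero_ne_one hT₀
  · have h1 : ∀ n, eval (Sum.elim (V n) (T' n)) (map φ (G l)) = 0 := by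
      intro n
      rw [eval_map]
      have := eval_scale (hG l) φ (V n) (T n) 1 (b n)
      simp only [one_mul] at this
      rw [hT']
      simp only
      rw [this, h n l, mul_zero]
    have hc : Continuous fun x : (Fin 3 ⊕ Fin (m + 1)) → L => eval x (map φ (G l)) :=
      MvPolynomial.continuous_eval _
    have h2 : Tendsto (fun n => Sum.elim (V (ψ n)) (T' (ψ n)) : ℕ → (Fin 3 ⊕ Fin (m + 1)) → L) atTop
        (𝓝 (Sum.elim V₀ T₀)) := by
      rw [tendsto_pi_nhds]
      rintro (j | s)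
      · exact (tendsto_pi_nhds.1 (hV.comp hψ.tendsto_atTop)) j
      · exact (tendsto_pi_nhds.1 hlim) s
    have h3 := (hc.tendsto _).comp h2
    have h4 : (fun x : (Fin 3 ⊕ Fin (m + 1)) → L => eval x (map φ (G l))) ∘
        (fun n => Sum.elim (V (ψ n)) (T' (ψ n))) = fun _ => 0 := by
      funext n
      exact h1 (ψ n)
    rw [h4] at h3
    have h5 := tendsto_nhds_unique h3 tendsto_const_nhds
    rw [← eval_map]
    exact h5

end lim

end Pool.Agent.K6.H88.SC
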