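import Pool.Agent.N137.PV.Tor
import Pool.Agent.TH942.Par

/-!
# Points which are infinitely divisible by two, over an unramified extension of `ℚ_2`
-/

set_option autoImplicit false
set_option linter.all false

open IsDedekindDomain NumberField WeierstrassCurve WeierstrassCurve.Affine
open scoped Classical

namespace Pool.Agent.K6.H88.SC

open Pool.Agent.N874.PP (sW)
open Pool.Agent.TH115.GD (Pt)
open Pool.Agent.N137.PV (xv dup1 dup2 dup eqn negY_eq)

section ez

theorem exp_succ_le {k : ℤ} {a b : WithZero (Multiplicative ℤ)} (ha : WithZero.exp k ≤ a)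
    (hab : a < b) : WithZero.exp (k + 1) ≤ b := by
  have hb : b ≠ 0 := by
    rintro rfl
    exact not_lt_zero' hab
  have h1 : WithZero.exp k < b := lt_of_le_of_lt ha hab
  rw [← WithZero.exp_log hb] at h1 ⊢
  rw [WithZero.exp_lt_exp] at h1
  rw [WithZero.exp_le_exp]
  omega

end ez

section pts

variable {L : Type} [Field L] [CharZero L] (v : Valuation L (WithZero (Multiplicative ℤ)))

theorem key_dbl (hv : v 2 = WithZero.exp (-1 : ℤ)) {A B : ℤ} (hA : Odd A) (hAB : (4 : ℤ) ∣ A - B)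
    (P : Pt (sW (A : L) (B : L)) L) (hP : P + P ≠ 0) :
    1 < xv (A : L) (B : L) v (P + P) ∧ xv (A : L) (B : L) v P < xv (A : L) (B : L) v (P + P) := by
  obtain ⟨k, hk⟩ := hA
  obtain ⟨m, hm⟩ := hAB
  have hB : B = 2 * k + 1 - 4 * m := by omega
  subst hk
  subst hB
  match P, hP with
  | .zero, hP => exact absurd (add_zero _) hP
  | .some x y h, hP =>
    have hy : y ≠ 0 := by
      rintro rfl
      apply hP
      apply Point.add_self_of_Y_eq
      rw [negY_eq]
      ring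
    obtain ⟨D, z, h', hadd, hD⟩ := dup _ _ x y h hy
    rw [hadd]
    have he := eqn _ _ h
    show 1 < v D ∧ v x < v D
    rcases le_or_gt (v x) 1 with hx | hx
    · have := dup1 v hv k m x y D hx he hD
      exact ⟨this, lt_of_le_of_lt hx this⟩
    · have := dup2 v hv _ _ x y D hx he hD
      exact ⟨lt_trans hx this, this⟩

theorem grow (hv : v 2 = WithZero.exp (-1 : ℤ)) {A B : ℤ} (hA : Odd A) (hAB : (4 : ℤ) ∣ A - B)
    (Q : Pt (sW (A : L) (B : L)) L) (n : ℕ) (hQ : 2 ^ (n + 1) • Q ≠ 0) :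
    WithZero.exp ((n : ℤ) + 1) ≤ xv (A : L) (B : L) v (2 ^ (n + 1) • Q) := by
  induction n with
  | zero =>
    have e : (2 ^ (0 + 1) : ℕ) • Q = Q + Q := by rw [zero_add, pow_one, two_nsmul]
    rw [e] at hQ ⊢
    have h1 := (key_dbl v hv hA hAB Q hQ).1
    have h2 : WithZero.exp (0 : ℤ) ≤ (1 : WithZero (Multiplicative ℤ)) := by
      rw [WithZero.exp_zero]
    have h3 := exp_succ_le h2 h1
    simpa using h3
  | succ n ih =>
    have e : (2 ^ (n + 1 + 1) : ℕ) • Q = 2 ^ (n + 1) • Q + 2 ^ (n + 1) • Q := by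
      rw [pow_succ, mul_comm, mul_smul, two_nsmul]
    rw [e] at hQ ⊢
    have h0 : 2 ^ (n + 1) • Q ≠ 0 := by
      intro h
      rw [h, add_zero] at hQ
      exact hQ rfl
    have h1 := (key_dbl v hv hA hAB _ hQ).2
    have h3 := exp_succ_le (ih h0) h1
    push_cast
    exact h3

theorem two_div0 (hv : v 2 = WithZero.exp (-1 : ℤ)) {A B : ℤ} (hA : Odd A)
    (hAB : (4 : ℤ) ∣ A - B) (P : Pt (sW (A : L) (B : L)) L)
    (h : ∀ n : ℕ, ∃ Q : Pt (sW (A : L) (B : L)) L, 2 ^ n • Q = P) : P = 0 := by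
  by_contra hP
  have h1 : ∀ n : ℕ, WithZero.exp ((n : ℤ) + 1) ≤ xv (A : L) (B : L) v P := by
    intro n
    obtain ⟨Q, hQ⟩ := h (n + 1)
    rw [← hQ] at hP ⊢
    exact grow v hv hA hAB Q n hP
  have h0 : xv (A : L) (B : L) v P ≠ 0 := by
    intro h2
    have h3 := h1 0
    rw [h2] at h3
    exact WithZero.exp_ne_zero (le_zero_iff.1 h3)
  have h2 := h1 (WithZero.log (xv (A : L) (B : L) v P)).toNat
  rw [← WithZero.exp_log h0, WithZero.exp_le_exp, WithZero.exp_log h0] at h2
  omega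

theorem two_div {K : Type} [Field K] [Algebra K L] (hv : v 2 = WithZero.exp (-1 : ℤ)) {A B : ℤ}
    (hA : Odd A) (hAB : (4 : ℤ) ∣ A - B)
    (P : ((Pool.Agent.TH942.sw (A : K) (B : K)).baseChange L).toAffine.Point)
    (h : ∀ n : ℕ, ∃ Q : ((Pool.Agent.TH942.sw (A : K) (B : K)).baseChange L).toAffine.Point,
      2 ^ n • Q = P) : P = 0 := by
  have key : ∀ (W : WeierstrassCurve L), W = (sW (A : L) (B : L)).baseChange L →
      ∀ P : W.toAffine.Point, (∀ n : ℕ, ∃ Q : W.toAffine.Point, 2 ^ n • Q = P) → P = 0 := by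
    rintro _ rfl P hP
    exact two_div0 v hv hA hAB P hP
  refine key _ ?_ P h
  ext <;> simp [Pool.Agent.TH942.sw, sW, WeierstrassCurve.baseChange, WeierstrassCurve.map]

end pts

end Pool.Agent.K6.H88.SC
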