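import Pool.Agent.K6.H88.SC.Sha
import Pool.Agent.K6.H88.SC.Loc

/-!
# Sections over the points of an elliptic curve with trivial 2-power Selmer groups
-/

set_option autoImplicit false
set_option linter.all false

open IsDedekindDomain NumberField WeierstrassCurve
open scoped Classical

namespace Pool.Agent.K6.H88.SC

open Pool.Agent.TH942 Pool.Agent.TH954

section desc

variable {K : Type} [Field K] [NumberField K] {M : Type} [Field M] [Algebra K M] {a b : K}

/-- The classes of 2-power order in the Tate-Shafarevich group are zero and there are no rational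
points: the division points of `P` can be chosen in the fixed field of the section. -/
theorem fixed_div (hSha : Pool.Agent.N874.PM.ShaR (𝓞 K) (sw a b))
    (hpt : Subsingleton ((sw a b).baseChange K).toAffine.Point)
    (A : SAct K M) (P : ((sw a b).baseChange M).toAffine.Point)
    (hP : ∀ τ, A.pt a b τ P = P) (hdiv : ∀ n : ℕ, ∃ Q, 2 ^ n • Q = P)
    (htor : ∀ N : ℕ, 1 ≤ N → ∀ T : ((sw a b).baseChange M).toAffine.Point, N • T = 0 →
      ∃ T0, pm (sw a b) A.j T0 = T)
    (pl : ∀ v : HeightOneSpectrum (𝓞 K), Plc K M (AlgebraicClosure (v.adicCompletion K)))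
    (hpl : ∀ v, GeoPlc A (pl v))
    (red : ∀ v : HeightOneSpectrum (𝓞 K), ((sw a b).baseChange M).toAffine.Point →+
      AlgPt (sw a b) (v.adicCompletion K))
    (h1 : ∀ v x y h, x ∉ (pl v).W → red v (.some x y h) = 0)
    (h2 : ∀ v x y h (hx : x ∈ (pl v).W), ∃ (hy : y ∈ (pl v).W)
      (h' : ((sw a b).baseChange (AlgebraicClosure (v.adicCompletion K))).toAffine.Nonsingular
        ((pl v).ρ ⟨x, hx⟩) ((pl v).ρ ⟨y, hy⟩)), red v (.some x y h) = .some _ _ h')
    (n : ℕ) : ∃ Q, 2 ^ n • Q = P ∧ ∀ τ, A.pt a b τ Q = Q := by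
  obtain ⟨Q0, hQ0⟩ := hdiv n
  obtain ⟨ξ, hξ, hξN, hξj⟩ := exists_cocycle A hQ0 hP (htor _ (Nat.one_le_two_pow))
  obtain ⟨R, hR⟩ := sha_of K (sw a b) hSha ξ hξ (fun v =>
    ⟨(pl v).iot A.j, red v Q0, (cocycle_local A (hpl v) (h1 v) (h2 v) hξj).1⟩) n hξN
  have hR0 : (2 ^ n : ℕ) • R = 0 := by
    obtain ⟨y, hy⟩ := exists_of_fixed (E := sw a b) (L := K) ((2 ^ n : ℕ) • R) (fun σ => by
      have e1 : act (sw a b) σ R = R + ξ σ := by
        rw [hR σ]
        abel
      rw [act_nsmul, e1, ns_add, hξN, add_zero])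
    have hy0 : y = 0 := Subsingleton.elim _ _
    rw [← hy, hy0]
    rfl
  refine ⟨Q0 - pm (sw a b) A.j R, ?_, fun τ => ?_⟩
  · rw [smul_sub, ← map_nsmul, hR0, map_zero, sub_zero, hQ0]
  · have e1 : A.pt a b τ (Q0 - pm (sw a b) A.j R) =
        A.pt a b τ Q0 - A.pt a b τ (pm (sw a b) A.j R) := map_sub _ _ _
    have e2 : A.pt a b τ Q0 = Q0 + pm (sw a b) A.j (ξ τ) := by
      rw [hξj]
      abel
    have e3 : act (sw a b) τ R = R + ξ τ := by
      rw [hR τ]
      abel
    rw [e1, e2, A.pt_j, e3, map_add]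
    abel

/-- the local point at a place above two -/
theorem red_two {A' B' : ℤ} (hA : Odd A') (hAB : (4 : ℤ) ∣ A' - B')
    (A : SAct K M) (P : ((sw (A' : K) (B' : K)).baseChange M).toAffine.Point)
    (hfix : ∀ n : ℕ, ∃ Q, 2 ^ n • Q = P ∧ ∀ τ, A.pt (A' : K) (B' : K) τ Q = Q)
    (v : HeightOneSpectrum (𝓞 K)) (hv : v.valuation K 2 = WithZero.exp (-1 : ℤ))
    (pl : Plc K M (AlgebraicClosure (v.adicCompletion K))) (hpl : GeoPlc A pl)
    (red : ((sw (A' : K) (B' : K)).baseChange M).toAffine.Point →+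
      AlgPt (sw (A' : K) (B' : K)) (v.adicCompletion K))
    (h1 : ∀ x y h, x ∉ pl.W → red (.some x y h) = 0)
    (h2 : ∀ x y h (hx : x ∈ pl.W), ∃ (hy : y ∈ pl.W)
      (h' : ((sw (A' : K) (B' : K)).baseChange
          (AlgebraicClosure (v.adicCompletion K))).toAffine.Nonsingular
        (pl.ρ ⟨x, hx⟩) (pl.ρ ⟨y, hy⟩)), red (.some x y h) = .some _ _ h') :
    red P = 0 := by
  haveI : CharZero (v.adicCompletion K) :=
    charZero_of_injective_algebraMap (algebraMap K (v.adicCompletion K)).injective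
  have hloc : ∀ T, (∀ τ, A.pt (A' : K) (B' : K) τ T = T) →
      ∃ R, incl (sw (A' : K) (B' : K)) (v.adicCompletion K) R = red T := by
    intro T hT
    refine exists_of_fixed _ ?_
    exact (cocycle_local A hpl (Q := T) (ξ := fun _ => 0) h1 h2 (fun σ => by
      rw [hT σ, sub_self]
      exact map_zero _)).2 T hT
  obtain ⟨Q0, hQ0, hf0⟩ := hfix 0
  have hPf : ∀ τ, A.pt (A' : K) (B' : K) τ P = P := by
    rw [pow_zero, one_smul] at hQ0
    rw [← hQ0]
    exact hf0
  obtain ⟨Pw, hPw⟩ := hloc P hPf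
  have hv' : (Valued.v : Valuation (v.adicCompletion K) (WithZero (Multiplicative ℤ))) 2 =
      WithZero.exp (-1 : ℤ) := by
    have e := v.valuedAdicCompletion_eq_valuation' (K := K) (2 : K)
    rw [← hv, ← e]
    congr 1
    exact (map_ofNat (algebraMap K (v.adicCompletion K)) 2).symm
  have h0 : Pw = 0 := by
    refine two_div (K := K) Valued.v hv' hA hAB Pw (fun n => ?_)
    obtain ⟨Q, hQ, hf⟩ := hfix n
    obtain ⟨R, hR⟩ := hloc Q hf
    refine ⟨R, incl_injective ?_⟩
    rw [incl_nsmul, hR, hPw, ← hQ, map_nsmul]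
  rw [← hPw, h0]
  rfl

end desc

end Pool.Agent.K6.H88.SC
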