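import Mathlib

/-!
# Curves with points over all completions of `ℚ`

`Y² = R(t)`, `R = h (g³ + 256 A g h² + 4096 B h³)`, `h = (t² + 1)(t² - 2)(t² + 2)`, `g(0) = -1`.
-/

set_option autoImplicit false
set_option linter.all false

namespace Pool.Agent.K6.H88.SC

open Polynomial

/-- `(X² + 1)(X² - 2)(X² + 2)` -/
noncomputable def hpol : ℤ[X] := (X ^ 2 + 1) * (X ^ 2 - 2) * (X ^ 2 + 2)

/-- `h (g³ + 256 A g h² + 4096 B h³)` -/
noncomputable def rpol (A B : ℤ) (g : ℤ[X]) : ℤ[X] :=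
  hpol * (g ^ 3 + 256 * C A * g * hpol ^ 2 + 4096 * C B * hpol ^ 3)

section
variable {F : Type*} [Field F]

theorem aeval_h (t : F) : aeval t hpol = (t ^ 2 + 1) * (t ^ 2 - 2) * (t ^ 2 + 2) := by
  simp [hpol, map_ofNat]

theorem aeval_r (A B : ℤ) (g : ℤ[X]) (t : F) :
    aeval t (rpol A B g) = aeval t hpol * ((aeval t g) ^ 3 +
      256 * (A : F) * aeval t g * (aeval t hpol) ^ 2 + 4096 * (B : F) * (aeval t hpol) ^ 3) := by
  rw [rpol, map_mul]
  congr 1
  simp [map_ofNat]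

/-- at a zero of `h` the point `(t, 0)` is a smooth point -/
theorem smooth_root [CharZero F] (A B : ℤ) {g : ℤ[X]} {t : F} (ht : aeval t hpol = 0)
    (hg : aeval t g ≠ 0) :
    (0 : F) ^ 2 = aeval t (rpol A B g) ∧ aeval t (derivative (rpol A B g)) ≠ 0 := by
  refine ⟨by rw [aeval_r, ht, zero_mul]; simp, ?_⟩
  have h1 : aeval t (derivative (rpol A B g)) = aeval t (derivative hpol) * (aeval t g) ^ 3 := by
    rw [rpol, derivative_mul, map_add, map_mul, map_mul, ht, zero_mul, add_zero]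
    congr 1
    simp [ht]
  rw [h1]
  refine mul_ne_zero ?_ (pow_ne_zero 3 hg)
  have h2 : aeval t (derivative hpol) = 2 * t * (t ^ 2 - 2) * (t ^ 2 + 2) +
      (t ^ 2 + 1) * (2 * t) * (t ^ 2 + 2) + (t ^ 2 + 1) * (t ^ 2 - 2) * (2 * t) := by
    simp only [hpol, derivative_mul, derivative_add, derivative_sub, derivative_X_pow,
      derivative_one, derivative_ofNat, map_add, map_mul, map_sub, map_pow, aeval_X, map_one,
      map_ofNat, add_zero, sub_zero, map_zero, zero_mul, Nat.cast_ofNat]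
    norm_num [map_ofNat]
    ring
  rw [h2]
  rw [aeval_h] at ht
  have h3 : (t ^ 2 = -1) ∨ (t ^ 2 = 2) ∨ (t ^ 2 = -2) := by
    rcases mul_eq_zero.1 ht with h | h
    · rcases mul_eq_zero.1 h with h | h
      · left; linear_combination h
      · right; left; linear_combination h
    · right; right; linear_combination h
  have h6 : (6 : F) ≠ 0 := by norm_num
  have h8 : (24 : F) ≠ 0 := by norm_num
  have h4 : (8 : F) ≠ 0 := by norm_num
  rcases h3 with h | h | h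
  · have ht0 : t ≠ 0 := by
      rintro rfl
      norm_num at h
    have e : 2 * t * (t ^ 2 - 2) * (t ^ 2 + 2) +
      (t ^ 2 + 1) * (2 * t) * (t ^ 2 + 2) + (t ^ 2 + 1) * (t ^ 2 - 2) * (2 * t) = -6 * t := by
      rw [h]; ring
    rw [e]
    exact mul_ne_zero (neg_ne_zero.2 h6) ht0
  · have ht0 : t ≠ 0 := by
      rintro rfl
      norm_num at h
    have e : 2 * t * (t ^ 2 - 2) * (t ^ 2 + 2) +
      (t ^ 2 + 1) * (2 * t) * (t ^ 2 + 2) + (t ^ 2 + 1) * (t ^ 2 - 2) * (2 * t) = 24 * t := by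
      rw [h]; ring
    rw [e]
    exact mul_ne_zero h8 ht0
  · have ht0 : t ≠ 0 := by
      rintro rfl
      norm_num at h
    have e : 2 * t * (t ^ 2 - 2) * (t ^ 2 + 2) +
      (t ^ 2 + 1) * (2 * t) * (t ^ 2 + 2) + (t ^ 2 + 1) * (t ^ 2 - 2) * (2 * t) = 8 * t := by
      rw [h]; ring
    rw [e]
    exact mul_ne_zero h4 ht0

/-- coprime polynomials have no common zeros -/
theorem no_common [CharZero F] {g : ℤ[X]}
    (hg : IsCoprime (g.map (Int.castRingHom ℚ)) (hpol.map (Int.castRingHom ℚ))) {t : F}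
    (ht : aeval t hpol = 0) : aeval t g ≠ 0 := by
  intro h0
  letI : Algebra ℚ F := DivisionRing.toRatAlgebra
  obtain ⟨u, v, huv⟩ := hg
  have h1 := congrArg (aeval t) huv
  have e1 : aeval t (g.map (Int.castRingHom ℚ)) = aeval t g :=
    aeval_map_algebraMap ℚ t g
  have e2 : aeval t (hpol.map (Int.castRingHom ℚ)) = aeval t hpol :=
    aeval_map_algebraMap ℚ t hpol
  rw [map_add, map_mul, map_mul, e1, e2, h0, ht, mul_zero, mul_zero, add_zero, map_one] at h1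
  exact zero_ne_one h1

end

/-- a square root in `ℤ_p` from one modulo `p` -/
theorem sq_padic {p : ℕ} [hp : Fact p.Prime] (hp2 : p ≠ 2) {a : ℤ} (ha : ¬ (p : ℤ) ∣ a)
    (h : IsSquare (a : ZMod p)) : ∃ t : ℚ_[p], t ^ 2 = a := by
  obtain ⟨b, hb⟩ := h
  obtain ⟨c, rfl⟩ := ZMod.intCast_surjective b
  have hc : (p : ℤ) ∣ c * c - a := by
    rw [← ZMod.intCast_zmod_eq_zero_iff_dvd]
    push_cast
    rw [← hb, sub_self]
  have hcp : ¬ (p : ℤ) ∣ 2 * c := by
    intro h1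
    have hpp : Prime (p : ℤ) := Nat.prime_iff_prime_int.1 hp.out
    rcases hpp.dvd_or_dvd h1 with h2 | h2
    · have h3 : p ∣ 2 := by exact_mod_cast h2
      exact hp2 ((Nat.prime_dvd_prime_iff_eq hp.out Nat.prime_two).1 h3)
    · apply ha
      have h3 : (p : ℤ) ∣ c * c := h2.mul_right c
      have h4 := dvd_sub h3 hc
      rwa [sub_sub_cancel] at h4
  have hn1 : ‖((c * c - a : ℤ) : ℤ_[p])‖ < 1 := (PadicInt.norm_int_lt_one_iff_dvd _).2 hc
  have hn2 : ‖((2 * c : ℤ) : ℤ_[p])‖ = 1 := by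
    refine le_antisymm (PadicInt.norm_le_one _) ?_
    rw [← not_lt]
    intro h1
    exact hcp ((PadicInt.norm_int_lt_one_iff_dvd _).1 h1)
  have key := hensels_lemma (R := ℤ_[p]) (p := p) (F := (X ^ 2 - C (a : ℤ_[p]) : ℤ_[p][X]))
    (a := (c : ℤ_[p])) (by
      have e1 : aeval (c : ℤ_[p]) (X ^ 2 - C (a : ℤ_[p]) : ℤ_[p][X]) =
          ((c * c - a : ℤ) : ℤ_[p]) := by
        simp [pow_two]
      have e2 : aeval (c : ℤ_[p]) (derivative (X ^ 2 - C (a : ℤ_[p]) : ℤ_[p][X])) =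
          ((2 * c : ℤ) : ℤ_[p]) := by
        simp [one_add_one_eq_two]
      rw [e1, e2, hn2, one_pow]
      exact hn1)
  obtain ⟨z, hz, -⟩ := key
  refine ⟨(z : ℚ_[p]), ?_⟩
  have e : z ^ 2 = (a : ℤ_[p]) := by
    have h1 : z ^ 2 - (a : ℤ_[p]) = 0 := by simpa using hz
    exact sub_eq_zero.1 h1
  have h2 := congrArg (fun x : ℤ_[p] => (x : ℚ_[p])) e
  push_cast at h2
  exact h2

/-- `1 + 8 m` is a square in `ℚ_2` -/
theorem sq_two (m : ℤ) : ∃ t : ℚ_[2], t ^ 2 = 1 + 8 * (m : ℚ_[2]) := by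
  have key := hensels_lemma (R := ℤ_[2]) (p := 2)
    (F := (X ^ 2 - C ((1 + 8 * m : ℤ) : ℤ_[2]) : ℤ_[2][X])) (a := (1 : ℤ_[2])) (by
      have e1 : aeval (1 : ℤ_[2]) (X ^ 2 - C ((1 + 8 * m : ℤ) : ℤ_[2]) : ℤ_[2][X]) =
          ((-(8 * m) : ℤ) : ℤ_[2]) := by
        simp
      have e2 : aeval (1 : ℤ_[2]) (derivative (X ^ 2 - C ((1 + 8 * m : ℤ) : ℤ_[2]) : ℤ_[2][X])) =
          2 := by
        simp [one_add_one_eq_two]
      rw [e1, e2]
      have h3 : ‖((-(8 * m) : ℤ) : ℤ_[2])‖ ≤ (2 : ℝ) ^ (-(3 : ℤ)) := by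
        have := (PadicInt.norm_int_le_pow_iff_dvd (p := 2) (k := -(8 * m)) (n := 3)).2 ⟨-m, by ring⟩
        simpa using this
      have h4 : ‖(2 : ℤ_[2])‖ = (2 : ℝ)⁻¹ := by
        have := PadicInt.norm_p (p := 2)
        simpa using this
      rw [h4]
      refine lt_of_le_of_lt h3 ?_
      norm_num)
  obtain ⟨z, hz, -⟩ := key
  refine ⟨(z : ℚ_[2]), ?_⟩
  have e : z ^ 2 = ((1 + 8 * m : ℤ) : ℤ_[2]) := by
    have h1 : z ^ 2 - ((1 + 8 * m : ℤ) : ℤ_[2]) = 0 := by simpa using hz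
    exact sub_eq_zero.1 h1
  have h2 := congrArg (fun x : ℤ_[2] => (x : ℚ_[2])) e
  push_cast at h2
  exact h2

/-- one of `-1`, `2`, `-2` is a square modulo `p` -/
theorem one_sq {p : ℕ} [hp : Fact p.Prime] (hp2 : p ≠ 2) :
    IsSquare ((-1 : ℤ) : ZMod p) ∨ IsSquare ((2 : ℤ) : ZMod p) ∨ IsSquare ((-2 : ℤ) : ZMod p) := by
  have hodd : p % 2 = 1 := hp.out.eq_two_or_odd.resolve_left hp2
  have h8 : p % 8 = 1 ∨ p % 8 = 3 ∨ p % 8 = 5 ∨ p % 8 = 7 := by omega
  rcases h8 with h | h | h | h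
  · left
    push_cast
    rw [ZMod.exists_sq_eq_neg_one_iff]
    omega
  · right; right
    push_cast
    rw [ZMod.exists_sq_eq_neg_two_iff hp2]
    right; exact h
  · left
    push_cast
    rw [ZMod.exists_sq_eq_neg_one_iff]
    omega
  · right; left
    push_cast
    rw [ZMod.exists_sq_eq_two_iff hp2]
    right; exact h

theorem root_padic {p : ℕ} [hp : Fact p.Prime] (hp2 : p ≠ 2) : ∃ t : ℚ_[p], aeval t hpol = 0 := by
  have hd : ∀ a : ℤ, a = -1 ∨ a = 2 ∨ a = -2 → ¬ (p : ℤ) ∣ a := by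
    intro a ha h
    have h1 : (p : ℤ) ∣ 2 := by
      rcases ha with rfl | rfl | rfl
      · exact (h.mul_right (-2)).trans (by norm_num)
      · exact h
      · exact (dvd_neg.2 h).trans (by norm_num)
    have h3 : p ∣ 2 := by exact_mod_cast h1
    exact hp2 ((Nat.prime_dvd_prime_iff_eq hp.out Nat.prime_two).1 h3)
  rcases one_sq hp2 with h | h | h
  · obtain ⟨t, ht⟩ := sq_padic hp2 (hd (-1) (by tauto)) h
    refine ⟨t, ?_⟩
    rw [aeval_h, ht]
    push_cast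
    ring
  · obtain ⟨t, ht⟩ := sq_padic hp2 (hd 2 (by tauto)) h
    refine ⟨t, ?_⟩
    rw [aeval_h, ht]
    push_cast
    ring
  · obtain ⟨t, ht⟩ := sq_padic hp2 (hd (-2) (by tauto)) h
    refine ⟨t, ?_⟩
    rw [aeval_h, ht]
    push_cast
    ring

/-- smooth points over all `ℚ_p` -/
theorem points_padic (A B : ℤ) {g : ℤ[X]} (hg0 : g.eval 0 = -1)
    (hg : IsCoprime (g.map (Int.castRingHom ℚ)) (hpol.map (Int.castRingHom ℚ)))
    (p : ℕ) [hp : Fact p.Prime] : ∃ t Y : ℚ_[p], Y ^ 2 = aeval t (rpol A B g) ∧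
      (Y ≠ 0 ∨ aeval t (derivative (rpol A B g)) ≠ 0) := by
  by_cases hp2 : p = 2
  · subst hp2
    obtain ⟨z, hz⟩ := sq_two (512 * A + 32768 * B)
    refine ⟨0, 2 * z, ?_, Or.inl ?_⟩
    · have e0 : aeval (0 : ℚ_[2]) g = -1 := by
        rw [← coe_aeval_eq_eval] at hg0
        have : aeval (algebraMap ℤ ℚ_[2] 0) g = algebraMap ℤ ℚ_[2] (aeval (0 : ℤ) g) :=
          aeval_algebraMap_apply ℚ_[2] 0 g
        rw [map_zero] at this
        rw [this, hg0]
        simp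
      rw [aeval_r, e0, aeval_h, mul_pow, hz]
      push_cast
      ring
    · refine mul_ne_zero two_ne_zero ?_
      rintro rfl
      have h1 : ((1 + 8 * (512 * A + 32768 * B) : ℤ) : ℚ_[2]) = 0 := by
        push_cast
        rw [zero_pow two_ne_zero] at hz
        push_cast at hz
        exact hz.symm
      have h2 : (1 + 8 * (512 * A + 32768 * B) : ℤ) = 0 := by exact_mod_cast h1
      omega
  · obtain ⟨t, ht⟩ := root_padic hp2
    obtain ⟨h1, h2⟩ := smooth_root A B ht (no_common hg ht)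
    exact ⟨t, 0, h1, Or.inr h2⟩

/-- smooth points over `ℝ` -/
theorem points_real (A B : ℤ) {g : ℤ[X]}
    (hg : IsCoprime (g.map (Int.castRingHom ℚ)) (hpol.map (Int.castRingHom ℚ))) :
    ∃ t Y : ℝ, Y ^ 2 = aeval t (rpol A B g) ∧
      (Y ≠ 0 ∨ aeval t (derivative (rpol A B g)) ≠ 0) := by
  have ht : aeval (Real.sqrt 2) hpol = 0 := by
    rw [aeval_h, Real.sq_sqrt (by norm_num)]
    ring
  obtain ⟨h1, h2⟩ := smooth_root A B ht (no_common hg ht)
  exact ⟨_, 0, h1, Or.inr h2⟩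

end Pool.Agent.K6.H88.SC
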