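import Pool.Agent.K6.H88.SC.Els
import Pool.Agent.K6.H88.SC.Cpt
import Pool.Agent.TH954.Ht
import Pool.Agent.N89.CI.Poly

/-!
# The family `Y² = R(t)` as a family of closed subvarieties of `E × ℙ¹`
-/

set_option autoImplicit false
set_option linter.all false

open MvPolynomial WeierstrassCurve
open scoped Classical

namespace Pool.Agent.K6.H88.SC

open Pool.Agent.TH954 (crd)
open Pool.Agent.TH942 (sw)

section forms
variable (R : Type) [CommRing R]

/-- the form of degree six given by a polynomial of degree at most six -/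
noncomputable def gform (g : Polynomial ℤ) : MvPolynomial (Fin 3 ⊕ Fin (1 + 1)) R :=
  ∑ i ∈ Finset.range 7, C ((g.coeff i : ℤ) : R) * X (Sum.inr 0) ^ i * X (Sum.inr 1) ^ (6 - i)

/-- the form of degree six given by `h` -/
noncomputable def hform : MvPolynomial (Fin 3 ⊕ Fin (1 + 1)) R :=
  (X (Sum.inr 0) ^ 2 + X (Sum.inr 1) ^ 2) * (X (Sum.inr 0) ^ 2 - C 2 * X (Sum.inr 1) ^ 2) *
    (X (Sum.inr 0) ^ 2 + C 2 * X (Sum.inr 1) ^ 2)

/-- the two equations in `E × ℙ¹` -/
noncomputable def form (A B : ℤ) (g : Polynomial ℤ) :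
    Fin 2 → MvPolynomial (Fin 3 ⊕ Fin (1 + 1)) R :=
  ![gform R g * X (Sum.inl 2) - C 16 * hform R * X (Sum.inl 0),
    gform R g * X (Sum.inl 0) ^ 2 + (C (A : R) * gform R g + C (16 * (B : R)) * hform R) *
      X (Sum.inl 2) ^ 2 - C 16 * hform R * X (Sum.inl 1) ^ 2]

variable {R}

lemma wX (x : Fin 3 ⊕ Fin (1 + 1)) (n : ℕ) :
    IsWeightedHomogeneous (wt 1) (X x ^ n : MvPolynomial (Fin 3 ⊕ Fin (1 + 1)) R)
      (n • wt 1 x) := (isWeightedHomogeneous_X R (wt 1) x).pow n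

lemma wC (c : R) : IsWeightedHomogeneous (wt 1)
    (C c : MvPolynomial (Fin 3 ⊕ Fin (1 + 1)) R) (0 : ℕ × ℕ) :=
  isWeightedHomogeneous_C _ c

lemma wgform (g : Polynomial ℤ) : IsWeightedHomogeneous (wt 1) (gform R g) ((0, 6) : ℕ × ℕ) := by
  refine (weightedHomogeneousSubmodule R (wt 1) ((0, 6) : ℕ × ℕ)).sum_mem fun i hi => ?_
  have h1 := ((wC (R := R) ((g.coeff i : ℤ) : R)).mul (wX (Sum.inr 0) i)).mul
    (wX (R := R) (Sum.inr 1) (6 - i))
  have h2 : (0 : ℕ × ℕ) + i • wt 1 (Sum.inr 0) + (6 - i) • wt 1 (Sum.inr 1) = (0, 6) := by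
    have h3 : i ≤ 6 := by
      have := Finset.mem_range.1 hi
      omega
    simp only [wt, Sum.elim_inr, Prod.smul_mk, smul_eq_mul, mul_zero, mul_one, zero_add,
      Prod.mk_add_mk]
    rw [Nat.add_sub_cancel' h3]
  rw [h2] at h1
  exact h1

lemma whform : IsWeightedHomogeneous (wt 1) (hform R) ((0, 6) : ℕ × ℕ) := by
  have h0 : IsWeightedHomogeneous (wt 1) (X (Sum.inr 0) ^ 2 : MvPolynomial (Fin 3 ⊕ Fin (1 + 1)) R)
      ((0, 2) : ℕ × ℕ) := wX (Sum.inr 0) 2
  have h1 : IsWeightedHomogeneous (wt 1) (X (Sum.inr 1) ^ 2 : MvPolynomial (Fin 3 ⊕ Fin (1 + 1)) R)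
      ((0, 2) : ℕ × ℕ) := wX (Sum.inr 1) 2
  have h2 : IsWeightedHomogeneous (wt 1)
      (C 2 * X (Sum.inr 1) ^ 2 : MvPolynomial (Fin 3 ⊕ Fin (1 + 1)) R)
      ((0, 2) : ℕ × ℕ) := (wC 2).mul h1
  exact ((h0.add h1).mul (h0.sub h2)).mul (h0.add h2)

/-- the bidegrees -/
def bideg : Fin 2 → ℕ × ℕ := ![(1, 6), (2, 6)]

theorem form_homog (A B : ℤ) (g : Polynomial ℤ) (l : Fin 2) :
    IsWeightedHomogeneous (wt 1) (form R A B g l) (bideg l) := by
  fin_cases l
  · have h1 : IsWeightedHomogeneous (wt 1) (X (Sum.inl 2) : MvPolynomial (Fin 3 ⊕ Fin (1 + 1)) R)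
      ((1, 0) : ℕ × ℕ) := isWeightedHomogeneous_X R (wt 1) (Sum.inl 2)
    have h2 : IsWeightedHomogeneous (wt 1) (X (Sum.inl 0) : MvPolynomial (Fin 3 ⊕ Fin (1 + 1)) R)
      ((1, 0) : ℕ × ℕ) := isWeightedHomogeneous_X R (wt 1) (Sum.inl 0)
    exact ((wgform g).mul h1).sub (((wC 16).mul whform).mul h2)
  · have h0 : IsWeightedHomogeneous (wt 1) (X (Sum.inl 0) ^ 2 :
        MvPolynomial (Fin 3 ⊕ Fin (1 + 1)) R) ((2, 0) : ℕ × ℕ) := wX (Sum.inl 0) 2
    have h1 : IsWeightedHomogeneous (wt 1) (X (Sum.inl 1) ^ 2 :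
        MvPolynomial (Fin 3 ⊕ Fin (1 + 1)) R) ((2, 0) : ℕ × ℕ) := wX (Sum.inl 1) 2
    have h2 : IsWeightedHomogeneous (wt 1) (X (Sum.inl 2) ^ 2 :
        MvPolynomial (Fin 3 ⊕ Fin (1 + 1)) R) ((2, 0) : ℕ × ℕ) := wX (Sum.inl 2) 2
    have h3 : IsWeightedHomogeneous (wt 1) (C (A : R) * gform R g + C (16 * (B : R)) * hform R)
        ((0, 6) : ℕ × ℕ) := ((wC _).mul (wgform g)).add ((wC _).mul whform)
    exact (((wgform g).mul h0).add (h3.mul h2)).sub (((wC 16).mul whform).mul h1)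

/-- the value of the form `g` -/
lemma eval_gform {S : Type} [CommRing S] (φ : R →+* S) (g : Polynomial ℤ) (V : Fin 3 → S)
    (T : Fin (1 + 1) → S) : eval₂ φ (Sum.elim V T) (gform R g) =
      ∑ i ∈ Finset.range 7, ((g.coeff i : ℤ) : S) * T 0 ^ i * T 1 ^ (6 - i) := by
  unfold gform
  rw [← coe_eval₂Hom, map_sum]
  refine Finset.sum_congr rfl fun i _ => ?_
  rw [map_mul, map_mul, coe_eval₂Hom, eval₂_C]
  simp

lemma eval_gform_one {S : Type} [CommRing S] (φ : R →+* S) {g : Polynomial ℤ}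
    (hg : g.natDegree ≤ 6) (V : Fin 3 → S) (t : S) :
    eval₂ φ (Sum.elim V ![t, 1]) (gform R g) = Polynomial.aeval t g := by
  rw [eval_gform, Polynomial.aeval_def, Polynomial.eval₂_eq_sum_range' _ (Nat.lt_succ_of_le hg)]
  refine Finset.sum_congr rfl fun i _ => ?_
  simp

lemma eval_hform {S : Type} [CommRing S] (φ : R →+* S) (V : Fin 3 → S)
    (T : Fin (1 + 1) → S) : eval₂ φ (Sum.elim V T) (hform R) =
      (T 0 ^ 2 + T 1 ^ 2) * (T 0 ^ 2 - 2 * T 1 ^ 2) * (T 0 ^ 2 + 2 * T 1 ^ 2) := by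
  unfold hform
  rw [← coe_eval₂Hom]
  simp [map_ofNat φ]

lemma eval_form0 {S : Type} [CommRing S] (φ : R →+* S) (A B : ℤ) (g : Polynomial ℤ)
    (V : Fin 3 → S) (T : Fin (1 + 1) → S) : eval₂ φ (Sum.elim V T) (form R A B g 0) =
      eval₂ φ (Sum.elim V T) (gform R g) * V 2 - 16 * eval₂ φ (Sum.elim V T) (hform R) * V 0 := by
  unfold form
  rw [← coe_eval₂Hom]
  simp [map_ofNat φ]

lemma eval_form1 {S : Type} [CommRing S] (φ : R →+* S) (A B : ℤ) (g : Polynomial ℤ)
    (V : Fin 3 → S) (T : Fin (1 + 1) → S) : eval₂ φ (Sum.elim V T) (form R A B g 1) =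
      eval₂ φ (Sum.elim V T) (gform R g) * V 0 ^ 2 +
      ((A : S) * eval₂ φ (Sum.elim V T) (gform R g) +
        16 * (B : S) * eval₂ φ (Sum.elim V T) (hform R)) * V 2 ^ 2 -
      16 * eval₂ φ (Sum.elim V T) (hform R) * V 1 ^ 2 := by
  have hc : ∀ n : ℤ, eval₂ φ (Sum.elim V T) ((n : ℤ) : MvPolynomial (Fin 3 ⊕ Fin (1 + 1)) R) =
      (n : S) := fun n => by
    rw [← coe_eval₂Hom, map_intCast]
  unfold form
  rw [← coe_eval₂Hom]
  simp [map_ofNat φ, hc]

end forms

section one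
open Pool.Agent.N89.CI
variable (R : Type) [CommRing R]

/-- the two equations in the coordinates of one plane and of `ℙ¹` -/
noncomputable def form1 (A B : ℤ) (g : Polynomial ℤ) (l : Fin 2) : Pol0 R 1 1 :=
  rename (Sum.map (fun j => ((0 : Fin 1), j)) id) (form R A B g l)

variable {R}

theorem form1_homog (A B : ℤ) (g : Polynomial ℤ) (l : Fin 2) :
    MHomog0 (form1 R A B g l) (fun _ => (bideg l).1) (bideg l).2 := by
  intro x hx
  obtain ⟨y, hy1, hy2⟩ := coeff_rename_ne_zero _ _ _ (mem_support_iff.1 hx)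
  have hinj : Function.Injective (Sum.map (fun j => ((0 : Fin 1), j)) id :
      Fin 3 ⊕ Fin (1 + 1) → (Fin 1 × Fin 3) ⊕ Fin (1 + 1)) :=
    Function.Injective.sumMap (fun a b h => (Prod.ext_iff.1 h).2) Function.injective_id
  have h1 := form_homog A B g l hy2
  rw [weight_wt] at h1
  have h2 : ∀ z, x (Sum.map (fun j => ((0 : Fin 1), j)) id z) = y z := by
    intro z
    rw [← hy1]
    exact Finsupp.mapDomain_apply hinj y z
  constructor
  · intro i
    obtain rfl : i = 0 := Subsingleton.elim _ _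
    change _ = (bideg l).1
    rw [← h1]
    exact Finset.sum_congr rfl fun j _ => h2 (Sum.inl j)
  · change _ = (bideg l).2
    rw [← h1]
    exact Finset.sum_congr rfl fun j _ => h2 (Sum.inr j)

theorem form1_val {S : Type} [CommRing S] (φ : R →+* S) (A B : ℤ) (g : Polynomial ℤ) (l : Fin 2)
    (V : Fin 1 → Fin 3 → S) (T : Fin (1 + 1) → S) :
    eval₂ φ (Sum.elim (fun ij => V ij.1 ij.2) T) (form1 R A B g l) =
      eval₂ φ (Sum.elim (V 0) T) (form R A B g l) := by
  unfold form1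
  rw [eval₂_rename]
  congr 1
  funext x
  rcases x with x | x <;> rfl

end one

section pts

/-- the point of `E` -/
theorem point_of {F : Type} [Field F] [CharZero F] {A B : ℤ} {g : Polynomial ℤ} {t Y : F}
    (hY : Y ^ 2 = Polynomial.aeval t (rpol A B g)) (hY0 : Y ≠ 0) :
    (Polynomial.aeval t hpol : F) ≠ 0 ∧
    (Y / (64 * (Polynomial.aeval t hpol) ^ 2)) ^ 2 =
      (Polynomial.aeval t g / (16 * Polynomial.aeval t hpol)) ^ 3 +
        (A : F) * (Polynomial.aeval t g / (16 * Polynomial.aeval t hpol)) + (B : F) := by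
  rw [aeval_r] at hY
  have hh : (Polynomial.aeval t hpol : F) ≠ 0 := by
    intro h
    rw [h, zero_mul] at hY
    exact hY0 (pow_eq_zero_iff (two_ne_zero) |>.1 hY)
  refine ⟨hh, ?_⟩
  field_simp
  rw [hY]
  ring

/-- the point `(P, (t : 1))` satisfies the equations -/
theorem form_zero {F : Type} [Field F] [CharZero F] {R : Type} [CommRing R] (φ : R →+* F)
    {A B : ℤ} {g : Polynomial ℤ} (hg : g.natDegree ≤ 6) {t x y : F}
    (hh : (Polynomial.aeval t hpol : F) ≠ 0)
    (hx : x = Polynomial.aeval t g / (16 * Polynomial.aeval t hpol))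
    (hxy : y ^ 2 = x ^ 3 + (A : F) * x + (B : F)) (l : Fin 2) :
    eval₂ φ (Sum.elim ![x, y, 1] ![t, 1]) (form R A B g l) = 0 := by
  have hH : eval₂ φ (Sum.elim ![x, y, 1] ![t, 1]) (hform R) = Polynomial.aeval t hpol := by
    rw [eval_hform, aeval_h]
    simp
  have hx' : Polynomial.aeval t g = 16 * Polynomial.aeval t hpol * x := by
    rw [hx]
    field_simp
  fin_cases l
  · change eval₂ φ _ (form R A B g 0) = 0
    rw [eval_form0, hH, eval_gform_one φ hg, hx']
    simp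
  · change eval₂ φ _ (form R A B g 1) = 0
    rw [eval_form1, hH, eval_gform_one φ hg, hx']
    simp only [Matrix.cons_val_zero, Matrix.cons_val_one, Matrix.cons_val_two, Matrix.tail_cons,
      Matrix.head_cons, Matrix.cons_val]
    linear_combination (-16 * Polynomial.aeval t hpol) * hxy

/-- over the origin the equations are `h(T) = 0` -/
theorem form_origin {F : Type} [Field F] [CharZero F] {R : Type} [CommRing R] (φ : R →+* F)
    {A B : ℤ} {g : Polynomial ℤ} {T : Fin (1 + 1) → F} (hT : T ≠ 0)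
    (h : ∀ l, eval₂ φ (Sum.elim ![0, 1, 0] T) (form R A B g l) = 0) :
    ∃ z : F, z ^ 2 = -1 ∨ z ^ 2 = 2 ∨ z ^ 2 = -2 := by
  have h1 := h 1
  rw [eval_form1, eval_hform] at h1
  simp only [Matrix.cons_val_zero, Matrix.cons_val_one, Matrix.cons_val_two, Matrix.tail_cons,
      Matrix.head_cons, Matrix.cons_val] at h1
  have h2 : (T 0 ^ 2 + T 1 ^ 2) * (T 0 ^ 2 - 2 * T 1 ^ 2) * (T 0 ^ 2 + 2 * T 1 ^ 2) = 0 := by
    have h16 : (16 : F) ≠ 0 := by norm_num
    refine (mul_eq_zero.1 (?_ : (16 : F) * _ = 0)).resolve_left h16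
    linear_combination (-1 : F) * h1
  have hT1 : T 1 ≠ 0 := by
    intro h3
    rw [h3] at h2
    have h4 : T 0 = 0 := by
      have : T 0 ^ 6 = 0 := by linear_combination h2
      exact pow_eq_zero_iff (by norm_num) |>.1 this
    apply hT
    funext i
    fin_cases i
    · exact h4
    · exact h3
  refine ⟨T 0 / T 1, ?_⟩
  rcases mul_eq_zero.1 h2 with h3 | h3
  · rcases mul_eq_zero.1 h3 with h3 | h3
    · left
      field_simp
      linear_combination h3
    · right; left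
      field_simp
      linear_combination h3
  · right; right
    field_simp
    linear_combination h3

/-- `-1`, `2`, `-2` are not squares in an unramified extension of `ℚ_2` -/
theorem no_root {F : Type} [Field F] (v : Valuation F (WithZero (Multiplicative ℤ)))
    (hv : v 2 = WithZero.exp (-1 : ℤ)) (z : F) : ¬ (z ^ 2 = -1 ∨ z ^ 2 = 2 ∨ z ^ 2 = -2) := by
  have key : ∀ u : F, v u ^ 2 = WithZero.exp (-1 : ℤ) → False := by
    intro u hu
    have hu0 : v u ≠ 0 := by
      intro h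
      rw [h, zero_pow two_ne_zero] at hu
      exact WithZero.exp_ne_zero hu.symm
    have h1 := congrArg WithZero.log hu
    rw [WithZero.log_pow, WithZero.log_exp] at h1
    simp only [nsmul_eq_mul, Nat.cast_ofNat] at h1
    omega
  rintro (h | h | h)
  · have h1 : (z - 1) ^ 2 = -2 * z := by linear_combination h
    have h2 : v z = 1 := by
      have h3 : v z ^ 2 = 1 := by rw [← map_pow, h, Valuation.map_neg, map_one]
      exact (pow_eq_one_iff_of_nonneg zero_le two_ne_zero).1 h3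
    apply key (z - 1)
    rw [← map_pow, h1, map_mul, Valuation.map_neg, hv, h2, mul_one]
  · exact key z (by rw [← map_pow, h, hv])
  · exact key z (by rw [← map_pow, h, Valuation.map_neg, hv])

end pts

end Pool.Agent.K6.H88.SC
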