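import Pool.Agent.K6.H88.SC.Loc
import Pool.Agent.K6.H88.SC.Cpt
import Pool.Agent.TH954.Descent

/-!
# Points which are divisible by `2 ^ n` converge to the origin
-/

set_option autoImplicit false
set_option linter.all false

open WeierstrassCurve WeierstrassCurve.Affine Filter Topology
open scoped Classical

namespace Pool.Agent.K6.H88.SC

open Pool.Agent.N874.PP (sW)
open Pool.Agent.TH942 (sw)
open Pool.Agent.TH954 (crd)
open Pool.Agent.N137.PV (xv eqn int_le)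

section
variable {L : Type} [NormedField L] [IsUltrametricDist L] [CharZero L]
  (v : Valuation L (WithZero (Multiplicative ℤ)))

/-- normalised coordinates -/
theorem coord_bound (hv : v 2 = WithZero.exp (-1 : ℤ)) (hn : ∀ x y : L, ‖x‖ ≤ ‖y‖ ↔ v x ≤ v y)
    {K : Type} [Field K] [Algebra K L] {A B : ℤ} (hA : Odd A) (hAB : (4 : ℤ) ∣ A - B) (n : ℕ)
    (P Q : ((sw (A : K) (B : K)).baseChange L).toAffine.Point) (hQ : 2 ^ (n + 1) • Q = P) :
    ∃ c : L, c ≠ 0 ∧ c * crd P 1 = 1 ∧ ‖c * crd P 0‖ ^ 2 ≤ ‖(2 : L)‖ ^ (n + 1) ∧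
      ‖c * crd P 2‖ ^ 2 ≤ ‖(2 : L)‖ ^ (n + 1) := by
  have h2lt : ‖(2 : L)‖ < 1 := by
    rw [← not_le, ← norm_one (α := L), hn, hv, map_one, ← WithZero.exp_zero, WithZero.exp_le_exp]
    norm_num
  have h20 : (0 : ℝ) < ‖(2 : L)‖ := norm_pos_iff.2 two_ne_zero
  rcases P with _ | ⟨x, y, h⟩
  · refine ⟨1, one_ne_zero, by simp [crd], ?_, ?_⟩ <;>
    · have : (0 : ℝ) ≤ ‖(2 : L)‖ ^ (n + 1) := by positivity
      simpa [crd] using this
  · -- the valuation of `x`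
    have key : ∀ (W : WeierstrassCurve L), W = (sW (A : L) (B : L)).baseChange L →
        ∀ (h : W.toAffine.Nonsingular x y) (Q : W.toAffine.Point),
          2 ^ (n + 1) • Q = Affine.Point.some x y h →
          WithZero.exp ((n : ℤ) + 1) ≤ v x ∧ y ^ 2 = x ^ 3 + (A : L) * x + (B : L) := by
      rintro _ rfl h Q hQ
      refine ⟨?_, eqn _ _ h⟩
      have h1 := grow v hv hA hAB Q n (by rw [hQ]; exact Affine.Point.some_ne_zero h)
      rw [hQ] at h1
      exact h1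
    obtain ⟨hx, hxy⟩ := key _ (by
      ext <;> simp [sw, sW, WeierstrassCurve.baseChange, WeierstrassCurve.map]) h Q hQ
    have hx' : ‖((2 : L) ^ (n + 1))⁻¹‖ ≤ ‖x‖ := by
      rw [hn]
      have e : v ((2 : L) ^ (n + 1))⁻¹ = WithZero.exp ((n : ℤ) + 1) := by
        rw [map_inv₀, map_pow, hv, ← WithZero.exp_nsmul, ← WithZero.exp_neg]
        congr 1
        simp
      rw [e]
      exact hx
    rw [norm_inv, norm_pow] at hx'
    have hpow : (0 : ℝ) < ‖(2 : L)‖ ^ (n + 1) := by positivity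
    have hpow1 : ‖(2 : L)‖ ^ (n + 1) < 1 := pow_lt_one₀ h20.le h2lt (Nat.succ_ne_zero n)
    have hx1 : 1 < ‖x‖ := lt_of_lt_of_le ((one_lt_inv₀ hpow).2 hpow1) hx'
    have hx0 : 0 < ‖x‖ := zero_lt_one.trans hx1
    have hle : ∀ m : ℤ, ‖(m : L)‖ ≤ 1 := fun m => by
      rw [← norm_one (α := L), hn, map_one]
      exact int_le v m
    have hy : ‖y‖ ^ 2 = ‖x‖ ^ 3 := by
      have h3 : ‖(A : L) * x + (B : L)‖ ≤ ‖x‖ := by
        refine (IsUltrametricDist.norm_add_le_max _ _).trans (max_le ?_ ((hle B).trans hx1.le))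
        rw [norm_mul]
        calc ‖(A : L)‖ * ‖x‖ ≤ 1 * ‖x‖ := by gcongr; exact hle A
          _ = ‖x‖ := one_mul _
      have h4 : ‖x‖ < ‖x ^ 3‖ := by
        rw [norm_pow]
        calc ‖x‖ = ‖x‖ ^ 1 := (pow_one _).symm
          _ < ‖x‖ ^ 3 := pow_lt_pow_right₀ hx1 (by norm_num)
      rw [← norm_pow, hxy, add_assoc,
        IsUltrametricDist.norm_add_eq_max_of_norm_ne_norm (ne_of_gt (h3.trans_lt h4)),
        max_eq_left (h3.trans h4.le), norm_pow]
    have hy0 : y ≠ 0 := by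
      rintro rfl
      rw [norm_zero, zero_pow two_ne_zero] at hy
      exact (pow_pos hx0 3).ne hy
    have hxi : ‖x‖⁻¹ ≤ ‖(2 : L)‖ ^ (n + 1) := by
      rw [inv_le_comm₀ hx0 hpow]
      exact hx'
    refine ⟨y⁻¹, inv_ne_zero hy0, ?_, ?_, ?_⟩
    · change y⁻¹ * y = 1
      exact inv_mul_cancel₀ hy0
    · change ‖y⁻¹ * x‖ ^ 2 ≤ _
      rw [norm_mul, norm_inv, mul_pow, inv_pow, hy]
      have e : (‖x‖ ^ 3)⁻¹ * ‖x‖ ^ 2 = ‖x‖⁻¹ := by
        field_simp
      rw [e]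
      exact hxi
    · change ‖y⁻¹ * 1‖ ^ 2 ≤ _
      rw [mul_one, norm_inv, inv_pow, hy]
      refine le_trans ?_ hxi
      rw [inv_le_inv₀ (pow_pos hx0 3) hx0]
      calc ‖x‖ = ‖x‖ ^ 1 := (pow_one _).symm
        _ ≤ ‖x‖ ^ 3 := pow_le_pow_right₀ hx1.le (by norm_num)

/-- a closed subset of `E × ℙᵐ` with points over points divisible by `2 ^ n` for all `n` has a point
over the origin -/
theorem fibre_point [ProperSpace L] (hv : v 2 = WithZero.exp (-1 : ℤ))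
    (hn : ∀ x y : L, ‖x‖ ≤ ‖y‖ ↔ v x ≤ v y)
    {K : Type} [Field K] [Algebra K L] {A B : ℤ} (hA : Odd A) (hAB : (4 : ℤ) ∣ A - B)
    {m q : ℕ} {R : Type} [CommRing R] (φ : R →+* L)
    (G : Fin q → MvPolynomial (Fin 3 ⊕ Fin (m + 1)) R) (de : Fin q → ℕ × ℕ)
    (hG : ∀ l, MvPolynomial.IsWeightedHomogeneous (wt m) (G l) (de l))
    (h : ∀ n : ℕ, ∃ (P Q : ((sw (A : K) (B : K)).baseChange L).toAffine.Point)
      (T : Fin (m + 1) → L), 2 ^ (n + 1) • Q = P ∧ T ≠ 0 ∧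
      ∀ l, MvPolynomial.eval₂ φ (Sum.elim (crd P) T) (G l) = 0) :
    ∃ T : Fin (m + 1) → L, T ≠ 0 ∧ ∀ l, MvPolynomial.eval₂ φ (Sum.elim ![0, 1, 0] T) (G l) = 0 := by
  choose P Q T hQ hT h0 using h
  choose c hc0 hc1 hcx hcz using fun n => coord_bound v hv hn hA hAB n (P n) (Q n) (hQ n)
  have h2lt : ‖(2 : L)‖ < 1 := by
    rw [← not_le, ← norm_one (α := L), hn, hv, map_one, ← WithZero.exp_zero, WithZero.exp_le_exp]
    norm_num
  have hlim2 : Tendsto (fun n : ℕ => ‖(2 : L)‖ ^ (n + 1)) atTop (𝓝 0) :=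
    (tendsto_pow_atTop_nhds_zero_of_lt_one (norm_nonneg _) h2lt).comp (tendsto_add_atTop_nat 1)
  have hto : ∀ (f : ℕ → L), (∀ n, ‖f n‖ ^ 2 ≤ ‖(2 : L)‖ ^ (n + 1)) → Tendsto f atTop (𝓝 0) := by
    intro f hf
    rw [tendsto_zero_iff_norm_tendsto_zero]
    have h1 : Tendsto (fun n => ‖f n‖ ^ 2) atTop (𝓝 0) :=
      squeeze_zero (fun n => by positivity) hf hlim2
    have h2 := (Real.continuous_sqrt.tendsto 0).comp h1
    rw [Real.sqrt_zero] at h2
    refine h2.congr fun n => ?_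
    exact Real.sqrt_sq (norm_nonneg _)
  refine exists_limit φ G de hG (fun n j => c n * crd (P n) j) ![0, 1, 0] ?_ T hT (fun n l => ?_)
  · rw [tendsto_pi_nhds]
    intro j
    fin_cases j
    · exact hto _ hcx
    · simp only [Fin.mk_one, Fin.isValue, hc1]
      exact tendsto_const_nhds
    · exact hto _ hcz
  · have h1 := eval_scale (hG l) φ (crd (P n)) (T n) (c n) 1
    simp only [one_mul] at h1
    rw [h1, h0 n l, mul_zero]

end

end Pool.Agent.K6.H88.SC
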