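import Pool.Agent.K6.H88.SC.Des

/-!
# Sections over the points of an elliptic curve with trivial 2-power Selmer groups (2)
-/

set_option autoImplicit false
set_option linter.all false

open IsDedekindDomain NumberField WeierstrassCurve
open scoped Classical

namespace Pool.Agent.K6.H88.SC

open Pool.Agent.TH942 Pool.Agent.TH954

section sect

variable {K : Type} [Field K] [NumberField K] {F M B : Type} [Field F] [Field M] [Field B]
  [Algebra K F] [Algebra F M] [Algebra K M] [IsScalarTower K F M] [Algebra.IsAlgebraic F M]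
  [Algebra K B] [IsAlgClosure K B]

theorem sections (A' B' : ℤ) (hA : Odd A') (hAB : (4 : ℤ) ∣ A' - B')
    (hD : 4 * (A' : K) ^ 3 + 27 * (B' : K) ^ 2 ≠ 0)
    (hSha : Pool.Agent.N874.PM.ShaR (𝓞 K) (sw (A' : K) (B' : K)))
    (hpt : Subsingleton ((sw (A' : K) (B' : K)).baseChange K).toAffine.Point)
    (P : ((sw (A' : K) (B' : K)).baseChange F).toAffine.Point)
    (hdiv : ∀ n : ℕ, ∃ Q : ((sw (A' : K) (B' : K)).baseChange M).toAffine.Point,
      2 ^ n • Q = pm (sw (A' : K) (B' : K)) (IsScalarTower.toAlgHom K F M) P)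
    (s : GalSection K F M B)
    (p : ∀ v : HeightOneSpectrum (𝓞 K), Plc K M (AlgebraicClosure (v.adicCompletion K)))
    (hp : ∀ v, s.GivenBy (v.adicCompletion K) (p v)) :
    (∀ n : ℕ, ∃ Q : ((sw (A' : K) (B' : K)).baseChange M).toAffine.Point,
      2 ^ n • Q = pm (sw (A' : K) (B' : K)) (IsScalarTower.toAlgHom K F M) P ∧
      ∀ g : B ≃ₐ[K] B, pm (sw (A' : K) (B' : K)) ((s.s g : M →ₐ[F] M).restrictScalars K) Q = Q) ∧
    ∀ v : HeightOneSpectrum (𝓞 K), v.valuation K 2 = WithZero.exp (-1 : ℤ) →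
      ∀ x y h, P = .some x y h → algebraMap F M x ∉ (p v).W := by
  have hcK : CharZero M := charZero_of_injective_algebraMap (algebraMap K M).injective
  have hcv : ∀ v : HeightOneSpectrum (𝓞 K), CharZero (v.adicCompletion K) := fun v =>
    charZero_of_injective_algebraMap (algebraMap K (v.adicCompletion K)).injective
  have hcv' : ∀ v : HeightOneSpectrum (𝓞 K), CharZero (AlgebraicClosure (v.adicCompletion K)) :=
    fun v => charZero_of_injective_algebraMap
      (algebraMap (v.adicCompletion K) (AlgebraicClosure (v.adicCompletion K))).injective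
  set A := toSAct s with hAdef
  have hpl : ∀ v, GeoPlc A (p v) := by
    intro v σ τ hστ x
    refine hp v σ ((eqv K B).autCongr τ) ?_ x _ ⟨x.2, rfl⟩
    intro z c hc
    obtain ⟨y, rfl⟩ := (eqv K B).surjective z
    have e1 : (p v).val (A.j y) ((p v).iot A.j y) := Plc.val_j _ y
    have e2 : (p v).val (A.j (τ y)) ((p v).iot A.j (τ y)) := Plc.val_j _ (τ y)
    have e3 : s.j ((eqv K B).autCongr τ (eqv K B y)) = A.j (τ y) := by
      change s.j (eqv K B (τ ((eqv K B).symm (eqv K B y)))) = _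
      rw [AlgEquiv.symm_apply_apply]
      rfl
    have e4 : (p v).iot A.j y = c := e1.unique hc
    rw [e3, ← e4, ← hστ y]
    exact e2
  have hAF : ∀ (τ : AlgebraicClosure K ≃ₐ[K] AlgebraicClosure K) (x : F),
      A.s τ (algebraMap F M x) = algebraMap F M x :=
    fun τ x => (s.s ((eqv K B).autCongr τ)).commutes x
  set P' : ((sw (A' : K) (B' : K)).baseChange M).toAffine.Point :=
    pm (sw (A' : K) (B' : K)) (IsScalarTower.toAlgHom K F M) P with hP'
  have hP'f : ∀ τ, A.pt (A' : K) (B' : K) τ P' = P' := by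
    intro τ
    change pm (sw (A' : K) (B' : K)) _ (pm (sw (A' : K) (B' : K)) _ P) =
      pm (sw (A' : K) (B' : K)) _ P
    rw [pm_pm]
    congr 2
    apply AlgHom.ext
    intro x
    exact hAF τ x
  choose red h1 h2 using fun v => exists_redM (p v) hD
  have hfix : ∀ n : ℕ, ∃ Q, 2 ^ n • Q = P' ∧ ∀ τ, A.pt (A' : K) (B' : K) τ Q = Q := fun n =>
    fixed_div hSha hpt A P' hP'f hdiv
      (fun N hN T hT => torsion_mem_sub (Ω := AlgebraicClosure M) hD
        (IsScalarTower.toAlgHom K M (AlgebraicClosure M)) A.j N hN T hT) p hpl red h1 h2 n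
  refine ⟨fun n => ?_, fun v hv x y h hPxy hx => ?_⟩
  · obtain ⟨Q, hQ, hf⟩ := hfix n
    refine ⟨Q, hQ, fun g => ?_⟩
    have h4 : A.pt (A' : K) (B' : K) ((eqv K B).autCongr.symm g) Q =
        pm (sw (A' : K) (B' : K)) ((s.s g : M →ₐ[F] M).restrictScalars K) Q := by
      unfold SAct.pt
      congr 2
      apply AlgHom.ext
      intro z
      exact toSAct_s s g z
    rw [← h4, hf]
  · have h0 := red_two hA hAB A P' hfix v hv (p v) (hpl v) (red v) (h1 v) (h2 v)
    have h5 : ∃ h', P' = .some (algebraMap F M x) (algebraMap F M y) h' := by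
      rw [hP', hPxy]
      exact ⟨_, rfl⟩
    obtain ⟨h', e'⟩ := h5
    obtain ⟨hy, h'', e''⟩ := h2 v _ _ h' hx
    rw [e', e''] at h0
    exact Affine.Point.some_ne_zero _ h0

end sect

end Pool.Agent.K6.H88.SC
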