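import Pool.Agent.N890.FD.Desc
import Pool.Agent.TH954.SPt

/-!
# Rational places give rational points
-/

set_option autoImplicit false
set_option linter.all false

open IsDedekindDomain NumberField WeierstrassCurve
open scoped Classical

namespace Pool.Agent.K6.H88.SC

open Pool.Agent.TH942 (sw)
open Pool.Agent.TH954 Pool.Agent.N890.FD Pool.Agent.N89.CI

section plc
variable {k L : Type} [Field k] [Field L] [Algebra k L]

/-- `O` is a valuation ring of `L` over `k` with residue field `k` -/
def RatPlace (k : Type) {L : Type} [Field k] [Field L] [Algebra k L] (O : ValuationSubring L) :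
    Prop :=
  (∀ c : k, algebraMap k L c ∈ O) ∧
    ∀ x ∈ O, ∃ c : k, x - algebraMap k L c = 0 ∨ (x - algebraMap k L c)⁻¹ ∉ O

/-- the place given by the valuation ring -/
theorem exists_plc (O : ValuationSubring L) (hO : RatPlace k O) : ∃ pl : Plc k L k, pl.W = O := by
  obtain ⟨h1, h2⟩ := hO
  let ι : k →+* O := (algebraMap k L).codRestrict O.toSubring h1
  let f : k →+* IsLocalRing.ResidueField O := (IsLocalRing.residue O).comp ι
  have hf : Function.Bijective f := by
    refine ⟨f.injective, fun y => ?_⟩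
    obtain ⟨x, rfl⟩ := IsLocalRing.residue_surjective y
    obtain ⟨c, hc⟩ := h2 x x.2
    refine ⟨c, ?_⟩
    change IsLocalRing.residue O (ι c) = IsLocalRing.residue O x
    symm
    rw [← sub_eq_zero, ← map_sub, IsLocalRing.residue_eq_zero_iff, IsLocalRing.mem_maximalIdeal,
      mem_nonunits_iff]
    intro hu
    have h3 : ((x - ι c : O) : L) = (x : L) - algebraMap k L c := rfl
    rcases hc with hc | hc
    · have : (x - ι c : O) = 0 := Subtype.ext hc
      rw [this] at hu
      exact not_isUnit_zero hu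
    · apply hc
      obtain ⟨u, hu⟩ := hu
      have h4 : ((u⁻¹ : Oˣ) : O).1 = (((x : L) - algebraMap k L c))⁻¹ := by
        rw [← h3, ← hu]
        apply eq_inv_of_mul_eq_one_left
        have := congrArg (Subtype.val) u.inv_mul
        exact this
      rw [← h4]
      exact ((u⁻¹ : Oˣ) : O).2
  let e : k ≃+* IsLocalRing.ResidueField O := RingEquiv.ofBijective f hf
  refine ⟨⟨O, (e.symm : IsLocalRing.ResidueField O →+* k).comp (IsLocalRing.residue O), ?_, ?_⟩,
    rfl⟩
  · intro x hx
    have h3 : IsLocalRing.residue O x ≠ 0 := by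
      intro h
      apply hx
      change e.symm (IsLocalRing.residue O x) = 0
      rw [h, map_zero]
    have h4 : IsUnit x := by
      by_contra h
      exact h3 ((IsLocalRing.residue_eq_zero_iff x).2 ((IsLocalRing.mem_maximalIdeal x).2 h))
    obtain ⟨u, rfl⟩ := h4
    have h5 : ((u⁻¹ : Oˣ) : O).1 = ((u : O) : L)⁻¹ := by
      apply eq_inv_of_mul_eq_one_left
      have := congrArg (Subtype.val) u.inv_mul
      exact this
    rw [← h5]
    exact ((u⁻¹ : Oˣ) : O).2
  · intro c
    refine ⟨h1 c, ?_⟩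
    change e.symm (IsLocalRing.residue O (ι c)) = c
    rw [RingEquiv.symm_apply_eq]
    rfl

/-- reduction of a point at a rational place -/
theorem place_point [CharZero k] (pl : Plc k L k) {r m : ℕ} {ι L' R : Type} [Fintype ι]
    [CommRing R] (ρ : R →+* k) (a b : Fin r → ℤ)
    (hD : ∀ i, 4 * (a i : k) ^ 3 + 27 * (b i : k) ^ 2 ≠ 0) (G' : L' → Pol R r m ι)
    (d : L' → Fin r → ℕ) (e : L' → ℕ) (hG' : ∀ l, MHomog (G' l) (d l) (e l)) (t : ι → k)
    (P : ∀ i, ((sw (a i : k) (b i : k)).baseChange L).toAffine.Point)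
    (hP : PtOver ρ (a := a) (b := b) G' t L P) :
    ∃ P' : ∀ i, ((sw (a i : k) (b i : k)).baseChange k).toAffine.Point,
      PtOver ρ (a := a) (b := b) G' t k P' := by
  obtain ⟨T, hT, h0⟩ := hP
  choose red h1 h2 using fun i => exists_redM pl (hD i)
  obtain ⟨s₀, hs₀, hs₁⟩ := exists_primitive pl.toPlace T hT
  have hmem : ∀ s, (T s₀)⁻¹ * T s ∈ pl.W := fun s => hs₁ s
  refine ⟨fun i => red i (P i), fun s => pl.ρ ⟨(T s₀)⁻¹ * T s, hmem s⟩, ?_, fun l => ?_⟩
  · intro h
    have h3 := congrFun h s₀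
    have h4 : pl.ρ ⟨(T s₀)⁻¹ * T s₀, hmem s₀⟩ = 1 := by
      rw [← map_one pl.ρ]
      congr 1
      exact Subtype.ext (inv_mul_cancel₀ hs₀)
    rw [h4] at h3
    exact one_ne_zero h3
  · choose u hu0 hu using fun i => red_crd (pl := pl) (red := red i) (map_zero (red i)) (h1 i)
      (h2 i) (P i)
    choose hm he using hu
    have h3 : valP (pl.cst.comp ρ) (G' l) (fun i j => (⟨u i * crd (P i) j, hm i j⟩ : pl.W))
        (fun s => (⟨(T s₀)⁻¹ * T s, hmem s⟩ : pl.W)) (fun s => pl.cst (t s)) = 0 := by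
      apply Subtype.ext
      have h4 := valP_map (pl.cst.comp ρ) (pl.W.subtype : pl.W →+* L) (G' l)
        (fun i j => (⟨u i * crd (P i) j, hm i j⟩ : pl.W))
        (fun s => (⟨(T s₀)⁻¹ * T s, hmem s⟩ : pl.W)) (fun s => pl.cst (t s))
      have h5 := valP_scale ((algebraMap k L).comp ρ) (G' l) (d l) (e l) (hG' l)
        (fun i => crd (P i)) T (fun s => algebraMap k L (t s)) u (T s₀)⁻¹
      rw [h0 l, mul_zero] at h5
      exact h4.trans h5
    have h6 := congrArg pl.ρ h3
    rw [map_zero, valP_map] at h6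
    refine Eq.trans ?_ h6
    have e1 : ((algebraMap k k).comp ρ) = (pl.ρ.comp (pl.cst.comp ρ)) := by
      ext x
      change ρ x = pl.ρ (pl.cst (ρ x))
      rw [pl.rho_cst]
      rfl
    have e2 : (fun i j => crd (red i (P i)) j) = fun i j => pl.ρ ⟨u i * crd (P i) j, hm i j⟩ := by
      funext i j
      rw [he i j]
    have e4 : (fun s => algebraMap k k (t s)) = fun s => pl.ρ (pl.cst (t s)) := by
      funext s
      rw [pl.rho_cst]
    rw [← e1, ← e4, ← e2]

end plc

end Pool.Agent.K6.H88.SC
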