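import Pool.Agent.K6.H88.SC.Sha
import Pool.Agent.K6.H88.SC.Lim
import Pool.Agent.TH954.DescentMain
import Pool.Agent.Y791.BS.Loc

/-!
# Selmer classes of the closed subvarieties of `E × ℙᵐ`
-/

set_option autoImplicit false
set_option linter.all false

open IsDedekindDomain NumberField WeierstrassCurve
open scoped Classical

namespace Pool.Agent.K6.H88.SC

open Pool.Agent.TH942 (sw)
open Pool.Agent.TH954

/-- The local points of a locally trivial class of level `2 ^ n` are divisible by `2 ^ n` if the classes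
of 2-power order in the Tate-Shafarevich group are zero and there are no rational points. -/
theorem sel_div {K : Type} [Field K] [NumberField K] {a b : K}
    (hSha : Pool.Agent.N874.PM.ShaR (𝓞 K) (sw a b))
    (hpt : Subsingleton ((sw a b).baseChange K).toAffine.Point) (n : ℕ)
    (ξ : (AlgebraicClosure K ≃ₐ[K] AlgebraicClosure K) → AlgPt (sw a b) K)
    (hξ : IsCocycle (sw a b) ξ) (hξN : ∀ σ, 2 ^ n • ξ σ = 0)
    (ι : ∀ v : HeightOneSpectrum (𝓞 K),
      AlgebraicClosure K →ₐ[K] AlgebraicClosure (v.adicCompletion K))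
    (P : ∀ v : HeightOneSpectrum (𝓞 K), ((sw a b).baseChange (v.adicCompletion K)).toAffine.Point)
    (Q : ∀ v : HeightOneSpectrum (𝓞 K), AlgPt (sw a b) (v.adicCompletion K))
    (hQ : ∀ v, 2 ^ n • Q v = incl (sw a b) (v.adicCompletion K) (P v))
    (hloc : ∀ v σ τ, Compat (ι v) σ τ → pm (sw a b) (ι v) (ξ τ) = act (sw a b) σ (Q v) - Q v)
    (v : HeightOneSpectrum (𝓞 K)) : ∃ z, 2 ^ n • z = P v := by
  obtain ⟨R, hR⟩ := sha_of K (sw a b) hSha ξ hξ (fun v => ⟨ι v, Q v, hloc v⟩) n hξN
  have hR0 : (2 ^ n : ℕ) • R = 0 := by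
    obtain ⟨y, hy⟩ := exists_of_fixed (E := sw a b) (L := K) ((2 ^ n : ℕ) • R) (fun σ => by
      have e1 : act (sw a b) σ R = R + ξ σ := by
        rw [hR σ]
        abel
      rw [act_nsmul, e1, ns_add, hξN, add_zero])
    have hy0 : y = 0 := Subsingleton.elim _ _
    rw [← hy, hy0]
    rfl
  haveI : CharZero (v.adicCompletion K) :=
    charZero_of_injective_algebraMap (algebraMap K (v.adicCompletion K)).injective
  obtain ⟨z, hz⟩ := local_step (M := 1) (N := 2 ^ n) (Q := Q v) (ι := ι v) (R := R) (y := 0)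
    (by rw [one_mul]; exact hQ v) (fun σ τ h => hloc v σ τ h) (fun τ => by rw [one_smul]; exact hR τ)
    (by rw [hR0]; rfl)
  refine ⟨z, ?_⟩
  rw [← hz, map_zero, sub_zero]

/-- A closed subset of `E × ℙᵐ` over the completion of `K` at a place above two with points over
points divisible by `2 ^ n` for all `n` has a point over the origin. -/
theorem fibre_compl {K : Type} [Field K] [NumberField K] {A' B' : ℤ} (hA : Odd A')
    (hAB : (4 : ℤ) ∣ A' - B') (v : HeightOneSpectrum (𝓞 K))
    (hv : v.valuation K 2 = WithZero.exp (-1 : ℤ)) {m q : ℕ} {R : Type} [CommRing R]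
    (φ : R →+* v.adicCompletion K) (G : Fin q → MvPolynomial (Fin 3 ⊕ Fin (m + 1)) R)
    (de : Fin q → ℕ × ℕ) (hG : ∀ l, MvPolynomial.IsWeightedHomogeneous (wt m) (G l) (de l))
    (h : ∀ n : ℕ, ∃ (P Q : ((sw (A' : K) (B' : K)).baseChange (v.adicCompletion K)).toAffine.Point)
      (T : Fin (m + 1) → v.adicCompletion K), 2 ^ (n + 1) • Q = P ∧ T ≠ 0 ∧
      ∀ l, MvPolynomial.eval₂ φ (Sum.elim (crd P) T) (G l) = 0) :
    ∃ T : Fin (m + 1) → v.adicCompletion K, T ≠ 0 ∧
      ∀ l, MvPolynomial.eval₂ φ (Sum.elim ![0, 1, 0] T) (G l) = 0 := by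
  haveI : CharZero (v.adicCompletion K) :=
    charZero_of_injective_algebraMap (algebraMap K (v.adicCompletion K)).injective
  haveI : ProperSpace (v.adicCompletion K) := Pool.Agent.Y791.BS.proper v
  haveI : IsUltrametricDist (v.adicCompletion K) := Pool.Agent.Y791.BS.ultra v
  have hv' : (Valued.v : Valuation (v.adicCompletion K) (WithZero (Multiplicative ℤ))) 2 =
      WithZero.exp (-1 : ℤ) := by
    have e := v.valuedAdicCompletion_eq_valuation' (K := K) (2 : K)
    rw [← hv, ← e]
    congr 1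
    exact (map_ofNat (algebraMap K (v.adicCompletion K)) 2).symm
  exact fibre_point (L := v.adicCompletion K) Valued.v hv'
    (fun x y => Valued.toNormedField.norm_le_iff) hA hAB φ G de hG h

end Pool.Agent.K6.H88.SC
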