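import Pool.Agent.K6.H88.SC.Els

/-!
# The polynomial `R` for `g = -1` is separable of degree 24
-/

set_option autoImplicit false
set_option linter.all false

namespace Pool.Agent.K6.H88.SC

open Polynomial

theorem natDegree_hpol : hpol.natDegree = 6 := by
  unfold hpol
  compute_degree!

theorem natDegree_r {A B : ℤ} (hB : B ≠ 0) : (rpol A B (-1)).natDegree = 24 := by
  have hh : hpol ≠ 0 := by
    intro h
    have := natDegree_hpol
    rw [h, natDegree_zero] at this
    omega
  have h3 : (4096 * C B * hpol ^ 3 : ℤ[X]).natDegree = 18 := by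
    have e : (4096 * C B : ℤ[X]) = C (4096 * B) := by
      rw [C_mul]; rfl
    rw [e, natDegree_C_mul (by positivity), natDegree_pow, natDegree_hpol]
  have h2 : ((-1 : ℤ[X]) ^ 3 + 256 * C A * (-1) * hpol ^ 2).natDegree < 18 := by
    have e : ((-1 : ℤ[X]) ^ 3 + 256 * C A * (-1) * hpol ^ 2) =
        C (-1) + C (-256 * A) * hpol ^ 2 := by
      simp only [C_mul, C_neg, C_1]
      have : (C 256 : ℤ[X]) = 256 := rfl
      rw [this]
      ring
    rw [e]
    refine lt_of_le_of_lt (natDegree_add_le _ _) (max_lt ?_ ?_)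
    · rw [natDegree_C]; norm_num
    · refine lt_of_le_of_lt (natDegree_C_mul_le _ _) ?_
      rw [natDegree_pow, natDegree_hpol]; norm_num
  have h4 : ((-1 : ℤ[X]) ^ 3 + 256 * C A * (-1) * hpol ^ 2 + 4096 * C B * hpol ^ 3).natDegree =
      18 := by
    rw [natDegree_add_eq_right_of_natDegree_lt (by rw [h3]; exact h2), h3]
  unfold rpol
  rw [natDegree_mul hh (by intro h; rw [h, natDegree_zero] at h4; omega), natDegree_hpol, h4]

/-- the critical points of `h` -/
theorem crit {F : Type*} [Field F] [CharZero F] (A B : ℤ) (s : F) (hs : 3 * s ^ 2 + 2 * s - 4 = 0)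
    (h : -1 - 256 * (A : F) * (s ^ 3 + s ^ 2 - 4 * s - 4) ^ 2 +
      4096 * (B : F) * (s ^ 3 + s ^ 2 - 4 * s - 4) ^ 3 = 0) : False := by
  set α : ℤ := 6561 + 6912 * 5776 * A + 4096 * 933056 * B with hα
  set β : ℤ := 6912 * 3640 * A + 4096 * 610688 * B with hβ
  have hD : 9 * (s ^ 3 + s ^ 2 - 4 * s - 4) = -(26 * s + 32) := by
    linear_combination (3 * s + 1) * hs
  have h1 : (α : F) + β * s = 0 := by
    have h2 : 729 * 9 * (-1 - 256 * (A : F) * (s ^ 3 + s ^ 2 - 4 * s - 4) ^ 2 +
      4096 * (B : F) * (s ^ 3 + s ^ 2 - 4 * s - 4) ^ 3) =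
      9 * (-729 - 2304 * (A : F) * (9 * (s ^ 3 + s ^ 2 - 4 * s - 4)) ^ 2 +
        4096 * B * (9 * (s ^ 3 + s ^ 2 - 4 * s - 4)) ^ 3) := by ring
    rw [h, hD, mul_zero] at h2
    have h3 : 3 * (26 * s + 32) ^ 2 = 5776 + 3640 * s := by
      linear_combination 676 * hs
    have h4 : 9 * (26 * s + 32) ^ 3 = 933056 + 610688 * s := by
      linear_combination (3 * (26 * s + 32)) * h3 + 94640 * hs
    rw [hα, hβ]
    push_cast
    linear_combination h2 + (-2304 * 3 * (A : F)) * h3 + (-4096 * (B : F)) * h4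
  have h2 : (3 * (α : F) ^ 2 - 2 * α * β - 4 * β ^ 2) = 0 := by
    linear_combination (3 * (α : F) - 2 * β - 3 * β * s) * h1 + (β : F) ^ 2 * hs
  have h3 : 3 * α ^ 2 - 2 * α * β - 4 * β ^ 2 = 0 := by exact_mod_cast h2
  have h4 : Odd α := by
    rw [hα, Int.odd_iff]
    omega
  obtain ⟨k, hk⟩ := h4
  rw [hk] at h3
  have h5 : (2 : ℤ) ∣ 3 := ⟨-(6 * k ^ 2 + 6 * k) + (2 * k + 1) * β + 2 * β ^ 2, by
    linear_combination h3⟩
  omega

/-- `R` is separable -/
theorem separable_r {A B : ℤ} (hA : Odd A) (hB : Odd B) :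
    ((rpol A B (-1)).map (Int.castRingHom ℚ)).Separable := by
  rw [Polynomial.separable_def,
    Polynomial.isCoprime_iff_aeval_ne_zero_of_isAlgClosed (k := ℚ) (K := ℂ)]
  intro a
  by_contra hcon
  push Not at hcon
  obtain ⟨h1, h2⟩ := hcon
  have e1 : aeval a ((rpol A B (-1)).map (Int.castRingHom ℚ)) = aeval a (rpol A B (-1)) :=
    aeval_map_algebraMap ℚ a _
  have e2 : aeval a (derivative ((rpol A B (-1)).map (Int.castRingHom ℚ))) =
      aeval a (derivative (rpol A B (-1))) := by
    rw [derivative_map]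
    exact aeval_map_algebraMap ℚ a _
  rw [e1, aeval_r] at h1
  rw [e2] at h2
  set H : ℂ := aeval a hpol with hH
  set H' : ℂ := aeval a (derivative hpol) with hH'
  have hm : aeval a (-1 : ℤ[X]) = -1 := by simp
  rw [hm] at h1
  have h3 : aeval a (derivative (rpol A B (-1))) =
      H' * (-1 - 256 * (A : ℂ) * H ^ 2 + 4096 * (B : ℂ) * H ^ 3) +
      H * (H' * (-512 * (A : ℂ) * H + 12288 * (B : ℂ) * H ^ 2)) := by
    have e : derivative (rpol A B (-1)) =
        derivative hpol * (-1 - 256 * C A * hpol ^ 2 + 4096 * C B * hpol ^ 3) +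
        hpol * (derivative hpol * (-512 * C A * hpol + 12288 * C B * hpol ^ 2)) := by
      have e0 : rpol A B (-1) = hpol * (-1 - 256 * C A * hpol ^ 2 + 4096 * C B * hpol ^ 3) := by
        unfold rpol
        ring
      have e5 : (256 : ℤ[X]) = C 256 := rfl
      have e6 : (4096 : ℤ[X]) = C 4096 := rfl
      have e7 : (512 : ℤ[X]) = C 512 := rfl
      have e8 : (12288 : ℤ[X]) = C 12288 := rfl
      rw [e0, derivative_mul]
      congr 1
      congr 1
      rw [derivative_add, derivative_sub, derivative_neg, derivative_one, e5, e6, ← C_mul,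
        ← C_mul, derivative_C_mul, derivative_C_mul, derivative_pow, derivative_pow]
      simp only [Nat.cast_ofNat, C_mul]
      rw [← e5, ← e6]
      simp only [map_ofNat]
      ring
    have hc : ∀ n : ℤ, aeval a (C n : ℤ[X]) = (n : ℂ) := fun n => by
      rw [aeval_C, eq_intCast]
    rw [e]
    simp only [map_add, map_mul, map_sub, map_neg, map_one, map_pow, map_ofNat, hc, ← hH, ← hH']
  rw [h3] at h2
  have hHa : H = (a ^ 2 + 1) * (a ^ 2 - 2) * (a ^ 2 + 2) := aeval_h a
  have hH'a : H' = 2 * a * (3 * (a ^ 2) ^ 2 + 2 * a ^ 2 - 4) := by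
    rw [hH']
    have : derivative hpol = 2 * X * (3 * (X ^ 2) ^ 2 + 2 * X ^ 2 - 4) := by
      unfold hpol
      simp only [derivative_mul, derivative_add, derivative_sub, derivative_X_pow,
        derivative_one, derivative_ofNat, add_zero, sub_zero, Nat.cast_ofNat]
      simp only [map_ofNat]
      ring
    rw [this]
    simp [map_ofNat]
  have h1' : H * (-1 - 256 * (A : ℂ) * H ^ 2 + 4096 * (B : ℂ) * H ^ 3) = 0 := by
    linear_combination h1
  rcases mul_eq_zero.1 h1' with h4 | h4
  · rw [h4] at h2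
    have h5 : H' = 0 := by linear_combination (-1 : ℂ) * h2
    rw [h4] at hHa
    rw [hH'a] at h5
    have h6 : a ^ 2 = -1 ∨ a ^ 2 = 2 ∨ a ^ 2 = -2 := by
      rcases mul_eq_zero.1 hHa.symm with h | h
      · rcases mul_eq_zero.1 h with h | h
        · left; linear_combination h
        · right; left; linear_combination h
      · right; right; linear_combination h
    rcases mul_eq_zero.1 h5 with h7 | h7
    · have ha : a = 0 := by
        have := mul_eq_zero.1 h7
        simpa using this
      rw [ha] at h6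
      norm_num at h6
    · rcases h6 with h6 | h6 | h6 <;> rw [h6] at h7 <;> norm_num at h7
  · have hH0 : H ≠ 0 := by
      intro h
      rw [h] at h4
      norm_num at h4
    rw [h4, mul_zero, zero_add] at h2
    have h5 := (mul_eq_zero.1 h2).resolve_left hH0
    rcases mul_eq_zero.1 h5 with h6 | h6
    · rw [hH'a] at h6
      rcases mul_eq_zero.1 h6 with h7 | h7
      · have ha : a = 0 := by
          have := mul_eq_zero.1 h7
          simpa using this
        rw [hHa, ha] at h4
        have h8 : ((-1 - 256 * A * 16 - 4096 * B * 64 : ℤ) : ℂ) = 0 := by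
          push_cast
          linear_combination h4
        have h9 : (-1 - 256 * A * 16 - 4096 * B * 64 : ℤ) = 0 := by exact_mod_cast h8
        omega
      · refine crit A B (a ^ 2) h7 ?_
        rw [hHa] at h4
        linear_combination h4
    · have h7 : (24 * (B : ℂ) * H - A) = 0 := by
        have h8 : 512 * H * (24 * (B : ℂ) * H - A) = 0 := by linear_combination h6
        exact (mul_eq_zero.1 h8).resolve_left (mul_ne_zero (by norm_num) hH0)
      have h8 : ((4 * A ^ 3 + 27 * B ^ 2 : ℤ) : ℂ) = 0 := by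
        have h9 : (27 : ℂ) * (B : ℂ) ^ 2 * (-1 - 256 * (A : ℂ) * H ^ 2 + 4096 * (B : ℂ) * H ^ 3) = 0 := by
          rw [h4, mul_zero]
        have hA' : (A : ℂ) = 24 * B * H := by linear_combination (-1 : ℂ) * h7
        push_cast
        rw [hA'] at h9 ⊢
        linear_combination (-1 : ℂ) * h9
      have h9 : (4 * A ^ 3 + 27 * B ^ 2 : ℤ) = 0 := by exact_mod_cast h8
      obtain ⟨k, hk⟩ := hB
      rw [hk] at h9
      have h10 : (2 : ℤ) ∣ 27 := ⟨-(2 * A ^ 3) - 27 * (2 * k ^ 2 + 2 * k), by linear_combination h9⟩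
      omega

end Pool.Agent.K6.H88.SC
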