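import Pool.Agent.TH954.SEt2
import Pool.Agent.N874.PM.Stm

/-!
# Locally trivial cocycles: from separable closures to algebraic closures

`ShaR` (cocycles of the Galois group of the separable closure, projects PP and PM) gives the
vanishing of the classes of 2-power order in the Tate-Shafarevich group in the terms of TH954.
-/

set_option autoImplicit false
set_option linter.all false

open IsDedekindDomain NumberField WeierstrassCurve
open scoped Classical

namespace Pool.Agent.K6.H88.SC

open Pool.Agent.TH954 (pm AlgPt IsCocycle TrivialOver Compat pm_pm)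

section gen

variable {K : Type} [Field K] {W : WeierstrassCurve K}

lemma pm_id {L : Type} [Field L] [Algebra K L] (f : L →ₐ[K] L) (h : ∀ x, f x = x)
    (P : (W.baseChange L).toAffine.Point) : pm W f P = P := by
  have e : f = AlgHom.id K L := AlgHom.ext h
  rw [e]
  cases P <;> rfl

lemma pm_congr {L L' : Type} [Field L] [Algebra K L] [Field L'] [Algebra K L'] {f g : L →ₐ[K] L'}
    (h : ∀ x, f x = g x) (P : (W.baseChange L).toAffine.Point) : pm W f P = pm W g P := by
  rw [AlgHom.ext h]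

end gen

open Pool.Agent.TH115.GD in
/-- the conversion -/
theorem sha_of (K : Type) [Field K] [NumberField K] (W : WeierstrassCurve K)
    (h : Pool.Agent.N874.PM.ShaR (𝓞 K) W)
    (ξ : (AlgebraicClosure K ≃ₐ[K] AlgebraicClosure K) → AlgPt W K) (hξ : IsCocycle W ξ)
    (hloc : ∀ v : HeightOneSpectrum (𝓞 K), TrivialOver W ξ (v.adicCompletion K)) (n : ℕ)
    (hn : ∀ σ, 2 ^ n • ξ σ = 0) :
    ∃ R : AlgPt W K, ∀ σ, ξ σ = Pool.Agent.TH954.act W σ R - R := by
  let e : Sep K ≃ₐ[K] AlgebraicClosure K := IsSepClosure.equiv K (Sep K) (AlgebraicClosure K)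
  let f : (Sep K ≃ₐ[K] Sep K) → Pt W (Sep K) := fun σ =>
    pm W (e.symm : AlgebraicClosure K →ₐ[K] Sep K) (ξ (e.autCongr σ))
  have hf : ∀ σ, f σ = pm W (e.symm : AlgebraicClosure K →ₐ[K] Sep K) (ξ (e.autCongr σ)) :=
    fun _ => rfl
  have hcoc : IsCoc W f := by
    refine ⟨?_, ?_⟩
    · rw [IsLocallyConstant.iff_exists_open]
      intro x
      obtain ⟨F0, hF0, hF⟩ := hξ.2
      have hfin : FiniteDimensional K (F0.map (e.symm : AlgebraicClosure K →ₐ[K] Sep K)) :=
        Pool.Agent.TH954.finite_map hF0 _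
      refine ⟨{y | x⁻¹ * y ∈ (F0.map (e.symm : AlgebraicClosure K →ₐ[K] Sep K)).fixingSubgroup}, ?_,
        ?_, ?_⟩
      · have h1 : IsOpen ((F0.map (e.symm : AlgebraicClosure K →ₐ[K] Sep K)).fixingSubgroup :
            Set (Sep K ≃ₐ[K] Sep K)) := IntermediateField.fixingSubgroup_isOpen _
        exact h1.preimage (continuous_mul_left x⁻¹)
      · simp only [Set.mem_setOf_eq, inv_mul_cancel]
        exact one_mem _
      · intro y hy
        rw [Set.mem_setOf_eq, IntermediateField.mem_fixingSubgroup_iff] at hy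
        rw [hf, hf]
        congr 1
        apply hF
        intro z hz
        have h2 := hy (e.symm z) ⟨z, hz, rfl⟩
        have h3 : y (e.symm z) = x (e.symm z) := by
          have h4 := congrArg x h2
          change x (x.symm (y (e.symm z))) = _ at h4
          rwa [AlgEquiv.apply_symm_apply] at h4
        change e (y (e.symm z)) = e (x (e.symm z))
        rw [h3]
    · intro σ τ
      rw [hf, hf, hf, map_mul, hξ.1, map_add]
      congr 1
      change pm W _ (pm W _ _) = pm W _ (pm W _ _)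
      rw [pm_pm, pm_pm]
      apply pm_congr
      intro z
      change e.symm (e (σ (e.symm z))) = σ (e.symm z)
      rw [AlgEquiv.symm_apply_apply]
  have hl : ∀ v : HeightOneSpectrum (𝓞 K),
      LocTriv W (Comp (𝓞 K) K v) (Sep (Comp (𝓞 K) K v)) f := by
    intro v
    have h0 : TrivialOver W ξ (Comp (𝓞 K) K v) := hloc v
    haveI : CharZero (Comp (𝓞 K) K v) :=
      charZero_of_injective_algebraMap (algebraMap K (Comp (𝓞 K) K v)).injective
    let ev : Sep (Comp (𝓞 K) K v) ≃ₐ[Comp (𝓞 K) K v] AlgebraicClosure (Comp (𝓞 K) K v) :=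
      IsSepClosure.equiv (Comp (𝓞 K) K v) (Sep (Comp (𝓞 K) K v))
        (AlgebraicClosure (Comp (𝓞 K) K v))
    obtain ⟨ι, Q, hQ⟩ := h0
    let evK : AlgebraicClosure (Comp (𝓞 K) K v) →ₐ[K] Sep (Comp (𝓞 K) K v) :=
      (ev.symm : AlgebraicClosure (Comp (𝓞 K) K v) →ₐ[Comp (𝓞 K) K v]
        Sep (Comp (𝓞 K) K v)).restrictScalars K
    refine ⟨evK.comp (ι.comp (e : Sep K →ₐ[K] AlgebraicClosure K)), pm W evK Q, ?_⟩
    intro τ σ hτσ
    have hc : Compat ι (ev.autCongr τ) (e.autCongr σ) := by
      intro z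
      have h1 := hτσ (e.symm z)
      change τ (ev.symm (ι (e (e.symm z)))) = ev.symm (ι (e (σ (e.symm z)))) at h1
      rw [AlgEquiv.apply_symm_apply] at h1
      change ι (e (σ (e.symm z))) = ev (τ (ev.symm (ι z)))
      rw [h1, AlgEquiv.apply_symm_apply]
    have h2 := hQ _ _ hc
    have h3 : Pool.Agent.TH115.GD.act W
        ((evK.comp (ι.comp (e : Sep K →ₐ[K] AlgebraicClosure K))).restrictScalars K) (f σ) =
        pm W evK (pm W ι (ξ (e.autCongr σ))) := by
      rw [hf]
      change pm W _ (pm W _ _) = pm W _ (pm W _ _)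
      rw [pm_pm, pm_pm]
      apply pm_congr
      intro z
      change evK (ι (e (e.symm z))) = evK (ι z)
      rw [AlgEquiv.apply_symm_apply]
    rw [h3, h2, map_sub]
    congr 1
    change pm W _ (pm W _ _) = pm W _ (pm W _ _)
    rw [pm_pm, pm_pm]
    apply pm_congr
    intro z
    change ev.symm (ev (τ (ev.symm z))) = τ (ev.symm z)
    rw [AlgEquiv.symm_apply_apply]
  obtain ⟨Q, hQ⟩ := h f hcoc hl ⟨n, 0, fun σ => by
    rw [hf, ← map_nsmul, hn, map_zero, map_zero, sub_zero]⟩
  refine ⟨pm W (e : Sep K →ₐ[K] AlgebraicClosure K) Q, fun σ => ?_⟩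
  have h1 := hQ (e.autCongr.symm σ)
  rw [hf, MulEquiv.apply_symm_apply] at h1
  have h2 := congrArg (pm W (e : Sep K →ₐ[K] AlgebraicClosure K)) h1
  rw [pm_pm, pm_id _ (fun x => e.apply_symm_apply x), map_sub] at h2
  rw [h2]
  congr 1
  change pm W _ (pm W _ _) = pm W _ (pm W _ _)
  rw [pm_pm, pm_pm]
  apply pm_congr
  intro z
  change e (e.symm (σ (e z))) = σ (e z)
  rw [AlgEquiv.apply_symm_apply]

end Pool.Agent.K6.H88.SC
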